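import Pool.Agent.W_448w7_h22.XfA

/-!
A frozen lower set with a component map: the two factors off the frozen set
(MP_448cb3_co, S8, `j = 14`, window 7).
-/

namespace Pool.Agent.GaussPoset.W7

set_option linter.unusedSectionVars false

open Polynomial Finset Fi

universe u

variable {P : Type u} [Fintype P] [PartialOrder P] [DecidableEq P]
variable {ι : Type*} [DecidableEq ι]

/-- the elements off the frozen set -/
abbrev FO (R : Finset P) : Type u := {x : P // x ∉ R}

/-- the component `t` -/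
abbrev FT (R : Finset P) (cp : P → ι) (t : ι) : Type u := {x : FO R // cp (x : P) = t}

/-- the rest -/
abbrev FR (R : Finset P) (cp : P → ι) (t : ι) : Type u := {x : FO R // ¬ cp (x : P) = t}

/-- a frozen lower set with a component map and bounded sums of full order -/
structure Frz (i K : ℕ) (R : Finset P) (cp : P → ι) (θ : P → ℕ) : Prop where
  gr : GradedBelow P
  low : ∀ x y : P, x ≤ y → y ∈ R → x ∈ R
  cp : ∀ x y : P, x ≤ y → x ∉ R → cp x = cp y
  bd : ∀ β : P → ℕ, (∀ x, x ∉ R → β x ≤ θ x) → ∀ n < K,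
    (1 + X : ℤ[X]) ^ (lv P i).card ∣ ZB i R 0 β n

/-- a component of order two with an anchor `c`: first pole `p` of the up-set of `c` at the
window `i + k`, with the leading coefficient `σ` -/
structure Anc (i k p K B0 : ℕ) (R : Finset P) (cp : P → ι) (t : ι) (c : P) (σ : ℤ) : Prop where
  off : c ∉ R
  ct : cp c = t
  cnt : (univ.filter (fun x : P => lev x = i ∧ x ∉ R ∧ cp x = t)).card = 2
  bel : (univ.filter (fun x : P => lev x < i ∧ x ∉ R ∧ cp x = t)).card = B0
  ord : ∀ n < K, (1 + X : ℤ[X]) ^ 2 ∣ Z (FT R cp t) i n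
  out : ∀ x, x ∉ R → cp x = t → ¬ c ≤ x → i + k ≤ lev x
  nab : nab (i + k) c = 2
  cl : ∀ U : Finset P, (∀ x, x ∈ U ↔ c ≤ x) → ∀ n < p,
    (1 + X : ℤ[X]) ^ 2 ∣ Z {x // x ∈ U} (i + k) n
  ld : ∀ U : Finset P, (∀ x, x ∈ U ↔ c ≤ x) →
    (1 + X : ℤ[X]) ^ 2 ∣ Z {x // x ∈ U} (i + k) p - C σ * (1 + X)

variable {i k p K B0 : ℕ} {R : Finset P} {cp : P → ι} {θ : P → ℕ} {t : ι} {c : P} {σ : ℤ}

lemma Frz.up (F : Frz i K R cp θ) : ∀ x y : P, x ≤ y → x ∉ R → y ∉ R :=
  fun x y hxy hx hy => hx (F.low x y hxy hy)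

lemma Frz.upT (F : Frz i K R cp θ) (t : ι) :
    ∀ x y : FO R, x ≤ y → cp (x : P) = t → cp (y : P) = t :=
  fun x y hxy hx => (F.cp _ _ hxy x.2).symm.trans hx

lemma Frz.upR (F : Frz i K R cp θ) (t : ι) :
    ∀ x y : FO R, x ≤ y → ¬ cp (x : P) = t → ¬ cp (y : P) = t :=
  fun x y hxy hx hy => hx ((F.cp _ _ hxy x.2).trans hy)

lemma Frz.levT (F : Frz i K R cp θ) (x : FT R cp t) : lev x = lev (x.1.1 : P) := by
  rw [lev_subtype (F.upT t), lev_subtype F.up]

lemma Frz.levR (F : Frz i K R cp θ) (x : FR R cp t) : lev x = lev (x.1.1 : P) := by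
  rw [lev_subtype (F.upR t), lev_subtype F.up]

lemma Frz.nabT (F : Frz i K R cp θ) (x : FT R cp t) (l : ℕ) :
    GaussPoset.nab l x = GaussPoset.nab l (x.1.1 : P) := by
  rw [nab_sub (F.upT t), nab_sub F.up]

lemma Frz.nabR (F : Frz i K R cp θ) (x : FR R cp t) (l : ℕ) :
    GaussPoset.nab l x = GaussPoset.nab l (x.1.1 : P) := by
  rw [nab_sub (F.upR t), nab_sub F.up]

lemma Frz.ctT (F : Frz i K R cp θ) (x : FT R cp t) (i' k' : ℕ) :
    GaussPoset.ct i' k' x = GaussPoset.ct i' k' (x.1.1 : P) := by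
  rw [ct_sub (F.upT t), ct_sub F.up]

lemma Frz.ctR (F : Frz i K R cp θ) (x : FR R cp t) (i' k' : ℕ) :
    GaussPoset.ct i' k' x = GaussPoset.ct i' k' (x.1.1 : P) := by
  rw [ct_sub (F.upR t), ct_sub F.up]

lemma Frz.nstR (F : Frz i K R cp θ) (x : FR R cp t) (i' k' : ℕ) :
    nst i' (fun _ => k') x = nst i' (fun _ => k') (x.1.1 : P) := by
  rw [nst_sub (F.upR t), nst_sub F.up]

/-- the product formula -/
lemma Frz.prod (F : Frz i K R cp θ) (hlev : ∀ x ∈ R, i < lev x) (t : ι) (β : P → ℕ) (n : ℕ) :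
    ZB i R 0 β n = ∑ ab ∈ antidiagonal n,
      ZB (P := FT R cp t) i ∅ 0 (fun x => β x.1.1) ab.1 *
      ZB (P := FR R cp t) i ∅ 0 (fun x => β x.1.1) ab.2 := by
  rw [ZB_off_bound F.low hlev]
  exact ZB_prod (fun x : FO R => cp (x : P) = t)
    (fun x y hxy => by rw [F.cp _ _ hxy x.2]) i (fun x : FO R => β x) n

/-- up-closed sets of the component -/
theorem Frz.Z_T (F : Frz i K R cp θ) {L : Finset (FT R cp t)}
    (hL : ∀ x y, x ≤ y → x ∈ L → y ∈ L) :
    ∃ L' : Finset P, (∀ x ∈ L', ∀ y, x ≤ y → y ∈ L') ∧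
      (∀ x : FT R cp t, x ∈ L ↔ x.1.1 ∈ L') ∧ (∀ x ∈ L', x ∉ R ∧ cp x = t) ∧
      ∀ i' n, Z {x // x ∈ L} i' n = Z {x // x ∈ L'} i' n := by
  classical
  let φ : FT R cp t → P := fun x => x.1.1
  have hφ : ∀ x y, φ x ≤ φ y ↔ x ≤ y := fun x y => Iff.rfl
  have hm : ∀ y, y ∈ L.image φ ↔ ∃ x ∈ L, φ x = y := fun y => mem_image
  refine ⟨L.image φ, ?_, ?_, ?_, fun i' n => StA_Z_image hφ hm i' n⟩
  · intro y hy z hyz
    obtain ⟨x, hx, rfl⟩ := (hm y).mp hy
    have h1 : z ∉ R := F.up _ _ hyz x.1.2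
    have h2 : cp z = t := (F.cp _ _ hyz x.1.2).symm.trans x.2
    exact (hm z).mpr ⟨⟨⟨z, h1⟩, h2⟩, hL x _ hyz hx, rfl⟩
  · intro x
    rw [hm]
    constructor
    · intro h
      exact ⟨x, h, rfl⟩
    · rintro ⟨y, hy, h⟩
      have : y = x := Subtype.ext (Subtype.ext h)
      rwa [← this]
  · intro y hy
    obtain ⟨x, hx, rfl⟩ := (hm y).mp hy
    exact ⟨x.1.2, x.2⟩

/-- the number of elements of the level `i` of the component -/
lemma Anc.lv_T (F : Frz i K R cp θ) (A : Anc i k p K B0 R cp t c σ) :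
    (lv (FT R cp t) i).card = 2 := by
  classical
  rw [← A.cnt]
  unfold lv
  have h3 : (univ.filter (fun x : FT R cp t => lev x = i)) =
      (univ.filter (fun x : FT R cp t => lev (x.1.1 : P) = i)) :=
    Finset.filter_congr fun x _ => by rw [F.levT]
  rw [h3, card_sub' (p := fun x : FO R => cp (x : P) = t) (fun x : FO R => lev (x : P) = i),
    card_sub' (p := fun x : P => x ∉ R) (fun x : P => cp x = t ∧ lev x = i)]
  congr 1
  refine Finset.filter_congr fun x _ => ?_
  tauto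

/-- a count over the two factors and the frozen set -/
lemma card_split (R : Finset P) (cp : P → ι) (t : ι) (q : P → Prop) [DecidablePred q]
    (hq : ∀ x ∈ R, ¬ q x) :
    (univ.filter (fun x : FR R cp t => q x.1.1)).card +
      (univ.filter (fun x : P => q x ∧ x ∉ R ∧ cp x = t)).card =
      (univ.filter (fun x : P => q x)).card := by
  classical
  rw [card_sub' (p := fun x : FO R => ¬ cp (x : P) = t) (fun x : FO R => q x),
    card_sub' (p := fun x : P => x ∉ R) (fun x : P => ¬ cp x = t ∧ q x)]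
  have h3 := Finset.card_filter_add_card_filter_not (s := (univ : Finset P).filter q)
    (fun x => cp x = t)
  rw [Finset.filter_filter, Finset.filter_filter] at h3
  rw [← h3, Nat.add_comm]
  congr 2
  · refine Finset.filter_congr fun x _ => ?_
    constructor
    · rintro ⟨h4, -, h5⟩
      exact ⟨h4, h5⟩
    · rintro ⟨h4, h5⟩
      exact ⟨h4, fun h => hq x h h4, h5⟩
  · refine Finset.filter_congr fun x _ => ?_
    constructor
    · rintro ⟨-, h4, h5⟩
      exact ⟨h5, h4⟩
    · rintro ⟨h4, h5⟩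
      exact ⟨fun h => hq x h h4, h5, h4⟩

/-- the number of elements of level `i` in the rest -/
lemma Anc.lv_R (F : Frz i K R cp θ) (A : Anc i k p K B0 R cp t c σ)
    (hlev : ∀ x ∈ R, i < lev x) : (lv (FR R cp t) i).card + 2 = (lv P i).card := by
  classical
  have h1 := card_split R cp t (fun x => lev x = i) (fun x hx h => by
    have := hlev x hx
    omega)
  have h2 := A.cnt
  have h3 : (univ.filter (fun x : FR R cp t => lev x = i)) =
      (univ.filter (fun x : FR R cp t => lev (x.1.1 : P) = i)) :=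
    Finset.filter_congr fun x _ => by rw [F.levR]
  unfold lv
  rw [h3]
  omega

/-- the number of elements of level below `i` in the rest -/
lemma Anc.below_R (F : Frz i K R cp θ) (A : Anc i k p K B0 R cp t c σ)
    (hlev : ∀ x ∈ R, i < lev x) : below (FR R cp t) i + B0 = below P i := by
  classical
  have h1 := card_split R cp t (fun x => lev x < i) (fun x hx h => by
    have := hlev x hx
    omega)
  have h2 := A.bel
  have h3 : (univ.filter (fun x : FR R cp t => lev x < i)) =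
      (univ.filter (fun x : FR R cp t => lev (x.1.1 : P) < i)) :=
    Finset.filter_congr fun x _ => by rw [F.levR]
  unfold below
  rw [h3]
  omega

end Pool.Agent.GaussPoset.W7
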