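import Pool.Agent.W_448w7_h94.WiA
import Pool.Agent.W_448w7_h22.XfB

/-!
A component with an anchor of level 15 and the label 2: the two factors off the frozen set
(MP_448cb3_co, S8, `j = 14`, window 7).
-/

namespace Pool.Agent.GaussPoset.W7

set_option linter.unusedSectionVars false

open Polynomial Finset Fi

universe u

variable {P : Type u} [Fintype P] [PartialOrder P] [DecidableEq P]
variable {i n1 : ℕ} {R : Finset P} {θ : P → ℕ} {t : Tops P} {c : P} {D : Finset P}

theorem Sp.frz (S : Sp i n1 R θ t c D) : Frz i n1 R topOf θ := ⟨S.gr, S.low, S.hcp, S.bd⟩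

lemma Sp.lev_R (S : Sp i n1 R θ t c D) : ∀ x ∈ R, i < lev x := fun x hx => by
  have := S.lR x hx
  omega

/-- the number of elements of the level `i` of the component -/
lemma Sp.lv_T (S : Sp i n1 R θ t c D) : (lv (FT R topOf t) i).card = 2 := by
  classical
  have F := S.frz
  rw [← S.two]
  unfold lv
  have h3 : (univ.filter (fun x : FT R topOf t => lev x = i)) =
      (univ.filter (fun x : FT R topOf t => lev (x.1.1 : P) = i)) :=
    Finset.filter_congr fun x _ => by rw [F.levT]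
  rw [h3, card_sub' (p := fun x : FO R => topOf (x : P) = t) (fun x : FO R => lev (x : P) = i),
    card_sub' (p := fun x : P => x ∉ R) (fun x : P => topOf x = t ∧ lev x = i)]
  congr 1
  refine Finset.filter_congr fun x _ => ?_
  constructor
  · rintro ⟨-, h4, h5⟩
    exact ⟨h5, h4⟩
  · rintro ⟨h4, h5⟩
    exact ⟨fun h => by have := S.lev_R x h; omega, h5, h4⟩

/-- the number of elements of level `i` in the rest -/
lemma Sp.lv_R (S : Sp i n1 R θ t c D) : (lv (FR R topOf t) i).card + 2 = (lv P i).card := by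
  classical
  have F := S.frz
  have h1 := card_split R topOf t (fun x => lev x = i) (fun x hx h => by
    have := S.lev_R x hx
    omega)
  have h2 := S.two
  have h4 : (univ.filter (fun x : P => lev x = i ∧ topOf x = t)) =
      (univ.filter (fun x : P => lev x = i ∧ x ∉ R ∧ topOf x = t)) := by
    refine Finset.filter_congr fun x _ => ?_
    constructor
    · rintro ⟨h4, h5⟩
      exact ⟨h4, fun h => by have := S.lev_R x h; omega, h5⟩
    · rintro ⟨h4, -, h5⟩
      exact ⟨h4, h5⟩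
  rw [h4] at h2
  have h3 : (univ.filter (fun x : FR R topOf t => lev x = i)) =
      (univ.filter (fun x : FR R topOf t => lev (x.1.1 : P) = i)) :=
    Finset.filter_congr fun x _ => by rw [F.levR]
  unfold lv
  rw [h3]
  omega

/-- the number of elements of level below `i` in the rest -/
lemma Sp.below_R (S : Sp i n1 R θ t c D) : below (FR R topOf t) i + i = below P i := by
  classical
  have F := S.frz
  have h1 := card_split R topOf t (fun x => lev x < i) (fun x hx h => by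
    have := S.lev_R x hx
    omega)
  have h2 := S.bel
  have h4 : (univ.filter (fun x : P => lev x < i ∧ topOf x = t)) =
      (univ.filter (fun x : P => lev x < i ∧ x ∉ R ∧ topOf x = t)) := by
    refine Finset.filter_congr fun x _ => ?_
    constructor
    · rintro ⟨h4, h5⟩
      exact ⟨h4, fun h => by have := S.lev_R x h; omega, h5⟩
    · rintro ⟨h4, -, h5⟩
      exact ⟨h4, h5⟩
  rw [h4] at h2
  have h3 : (univ.filter (fun x : FR R topOf t => lev x < i)) =
      (univ.filter (fun x : FR R topOf t => lev (x.1.1 : P) < i)) :=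
    Finset.filter_congr fun x _ => by rw [F.levR]
  unfold below
  rw [h3]
  omega

/-- the order of the component -/
lemma Sp.ordT (S : Sp i n1 R θ t c D) {n : ℕ} (hn : n < n1) :
    (1 + X : ℤ[X]) ^ 2 ∣ Z (FT R topOf t) i n := by
  classical
  obtain ⟨L', h1, h2, h3, h4⟩ := S.frz.Z_T (cp := topOf) (t := t)
    (L := (univ : Finset (FT R topOf t))) (fun x y _ _ => mem_univ y)
  have h5 : ∀ x, x ∈ L' ↔ x ∉ R ∧ topOf x = t := by
    intro x
    constructor
    · exact h3 x
    · rintro ⟨h5, h6⟩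
      exact (h2 ⟨⟨x, h5⟩, h6⟩).mp (mem_univ _)
  have h6 := S.clT L' h5 n hn
  rw [← h4] at h6
  have e : {x : FT R topOf t // x ∈ (univ : Finset (FT R topOf t))} ≃o FT R topOf t :=
    { Equiv.subtypeUnivEquiv (fun x => mem_univ x) with
      map_rel_iff' := Iff.rfl }
  rwa [Z_iso e i n] at h6

/-- the anchor -/
def Sp.cT (S : Sp i n1 R θ t c D) : FT R topOf t := ⟨⟨c, S.cR⟩, S.cpc⟩

lemma Sp.lev_cT (S : Sp i n1 R θ t c D) : lev S.cT = i + 8 := by
  rw [S.frz.levT]
  exact S.clev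

lemma Sp.ct_cT (S : Sp i n1 R θ t c D) : ct i 2 S.cT = 28 := by
  rw [S.frz.ctT]
  exact S.cct

lemma Sp.clsT (S : Sp i n1 R θ t c D) (L : Finset (FT R topOf t))
    (hL : ∀ x y, x ≤ y → x ∈ L → y ∈ L) (hc : S.cT ∈ L) :
    ∃ L' : Finset P, (∀ x ∈ L', x ∉ R ∧ topOf x = t) ∧ (∀ x ∈ L', ∀ y, x ≤ y → y ∈ L') ∧
      c ∈ L' ∧ (∀ x : FT R topOf t, x ∈ L ↔ x.1.1 ∈ L') ∧
      ∀ i' n, Z {x // x ∈ L} i' n = Z {x // x ∈ L'} i' n := by
  obtain ⟨L', h1, h2, h3, h4⟩ := S.frz.Z_T hL
  exact ⟨L', h3, h1, (h2 _).mp hc, h2, h4⟩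

lemma Sp.outT (S : Sp i n1 R θ t c D) (x : FT R topOf t) (hx : ¬ S.cT ≤ x) : i + 2 ≤ lev x := by
  rw [S.frz.levT]
  exact S.out x.1.1 x.1.2 x.2 (fun h => hx h)

/-- the component below the first pole -/
theorem Sp.T_dvd (S : Sp i n1 R θ t c D) {β : P → ℕ} (hc : β c = 2)
    (hβ : ∀ x, x ∉ R → topOf x = t → β x ≤ 2) {a : ℕ} (ha : a < 30) :
    (1 + X : ℤ[X]) ^ 2 ∣ ZB (P := FT R topOf t) i ∅ 0 (fun x => β x.1.1) a := by
  refine StA_dvd (v := S.cT) (k := 2) (p := 2) (fun x => hβ _ x.1.2 x.2) hc ?_ ?_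
  · intro L hL hv n hn
    obtain ⟨L', h1, h2, h3, -, h4⟩ := S.clsT L hL hv
    rw [h4]
    exact S.cls L' h1 h2 h3 n hn
  · rw [S.ct_cT]
    exact ha

/-- the component at the first pole -/
theorem Sp.T_lead (S : Sp i n1 R θ t c D) {β : P → ℕ} (hc : β c = 2)
    (hβ : ∀ x, x ∉ R → topOf x = t → x ≠ c → β x = 0) :
    (1 + X : ℤ[X]) ^ 2 ∣ ZB (P := FT R topOf t) i ∅ 0 (fun x => β x.1.1) 30 +
      X ^ 13 * (1 + X) := by
  classical
  have e1 : (fun x : FT R topOf t => β x.1.1) = sgz S.cT 2 := by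
    funext x
    by_cases hx : x = S.cT
    · rw [hx, sgz_self]
      exact hc
    · rw [sgz_ne _ hx]
      refine hβ _ x.1.2 x.2 fun h => hx ?_
      exact Subtype.ext (Subtype.ext h)
  have h2 := StA_lead (i := i) (k := 2) (p := 2) (s := 13) (v := S.cT) (by norm_num)
    (by rw [S.lev_cT]; omega) (fun x hx => S.outT x hx) (fun L hL hv n hn => by
      obtain ⟨L', h1, h2, h3, -, h4⟩ := S.clsT L hL hv
      rw [h4]
      exact S.cls L' h1 h2 h3 n hn) (fun L hL => by
      obtain ⟨L', h1, h2, h3, h5, h4⟩ := S.clsT L (fun x y hxy hx =>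
        (hL y).mpr (((hL x).mp hx).trans hxy)) ((hL _).mpr le_rfl)
      rw [h4]
      refine S.ld L' fun x => ?_
      constructor
      · intro hx
        obtain ⟨h6, h7⟩ := h1 x hx
        exact (hL _).mp ((h5 ⟨⟨x, h6⟩, h7⟩).mpr hx)
      · intro hx
        exact h2 c h3 x hx)
  rw [e1]
  rw [S.ct_cT] at h2
  exact h2

/-- the component with a second bound at an element of `D` -/
theorem Sp.T_dvd2 (S : Sp i n1 R θ t c D) {β : P → ℕ} (hc : β c = 2)
    (hβ : ∀ x, x ∉ R → topOf x = t → β x ≤ 2) {d z : P} (hd : d ∈ D) (hdR : d ∉ R)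
    (hdt : topOf d = t) (hβd : β d = 2) (hlz : lev z = i + 9)
    (hcov : ∀ y, z ⋖ y → y = c ∨ y = d) (hz : 40 ≤ ct i 2 z) {a : ℕ} (ha : a < 50) :
    (1 + X : ℤ[X]) ^ 2 ∣ ZB (P := FT R topOf t) i ∅ 0 (fun x => β x.1.1) a := by
  classical
  have hβ' : ∀ x : FT R topOf t, β x.1.1 ≤ 2 := fun x => hβ _ x.1.2 x.2
  rw [StA_ZB_upL hβ' (fun L => S.cT ∈ L ∧ (⟨⟨d, hdR⟩, hdt⟩ : FT R topOf t) ∈ L)
    (fun e F h => ⟨StA_anchor (v := S.cT) hc h,
      StA_anchor (v := (⟨⟨d, hdR⟩, hdt⟩ : FT R topOf t)) hβd h⟩)]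
  refine Finset.dvd_sum fun L hL => Finset.dvd_sum fun ab hab => ?_
  rw [mem_upsF] at hL
  rw [HasAntidiagonal.mem_antidiagonal] at hab
  refine dvd_mul_of_dvd_left ?_ _
  obtain ⟨hL1, hL2, hL3⟩ := hL
  -- the cost
  have h1 : 38 ≤ cw {x // x ∈ L} i 2 := by
    rw [cw_subtype hL1]
    have h2 : ct i 2 z ≤ 2 + ∑ x ∈ L, min 2 (lev x - i) := by
      rw [ct_eq_sum, ← Finset.sum_filter]
      have h3 : (univ.filter (fun x : P => z ≤ x)) ⊆ insert z (L.image (fun x => x.1.1)) := by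
        intro x hx
        rw [mem_insert]
        by_cases hxz : x = z
        · exact Or.inl hxz
        · right
          have h4 : z < x := lt_of_le_of_ne (mem_filter.mp hx).2 (Ne.symm hxz)
          obtain ⟨w, hw, hwx⟩ := Hul.exists_cov h4
          rw [mem_image]
          rcases hcov w hw with rfl | rfl
          · have h5 : x ∉ R := S.frz.up _ _ hwx S.cR
            have h6 : topOf x = t := (S.hcp _ _ hwx S.cR).symm.trans S.cpc
            exact ⟨⟨⟨x, h5⟩, h6⟩, hL1 _ _ hwx hL2, rfl⟩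
          · have h5 : x ∉ R := S.frz.up _ _ hwx hdR
            have h6 : topOf x = t := (S.hcp _ _ hwx hdR).symm.trans hdt
            exact ⟨⟨⟨x, h5⟩, h6⟩, hL1 _ _ hwx hL3, rfl⟩
      refine (Finset.sum_le_sum_of_subset h3).trans ?_
      have h7 : ∑ x ∈ L.image (fun x : FT R topOf t => x.1.1), min 2 (lev x - i) =
          ∑ x ∈ L, min 2 (lev x - i) := by
        rw [Finset.sum_image (fun x _ y _ h => Subtype.ext (Subtype.ext h))]
        exact Finset.sum_congr rfl fun x _ => by rw [S.frz.levT]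
      rw [← h7]
      by_cases h8 : z ∈ L.image (fun x : FT R topOf t => x.1.1)
      · rw [Finset.insert_eq_of_mem h8]
        omega
      · rw [Finset.sum_insert h8]
        exact Nat.add_le_add_right (min_le_left _ _) _
    omega
  rcases Nat.lt_or_ge ab.1 (cw {x // x ∈ L} i 2) with h2 | h2
  · rw [ZB_const_zero h2]
    exact dvd_zero _
  · obtain ⟨c', hc'⟩ := Nat.exists_eq_add_of_le' h2
    rw [hc', ZB_const]
    obtain ⟨L', g1, g2, g3, g5, g4⟩ := S.clsT L hL1 hL2
    rw [g4]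
    exact S.cls2 L' g1 g2 g3 ⟨d, hd, (g5 _).mp hL3⟩ c' (by omega)

end Pool.Agent.GaussPoset.W7
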