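import Pool.Agent.W_448w7_h22.SpA

/-!
A component with an anchor of level 15 and the label 2: the rest, the products
(MP_448cb3_co, S8, `j = 14`, window 7).
-/

namespace Pool.Agent.GaussPoset.W7

set_option linter.unusedSectionVars false

open Polynomial Finset Fi

universe u

variable {P : Type u} [Fintype P] [PartialOrder P] [DecidableEq P]
variable {i n1 : ℕ} {R : Finset P} {θ : P → ℕ} {t : Tops P} {c : P} {D : Finset P}

/-- the order of the rest -/
theorem Sp.dvd_R (S : Sp i n1 R θ t c D) (β : P → ℕ)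
    (hβ : ∀ x, x ∉ R → topOf x ≠ t → β x ≤ θ x) {n : ℕ} (hn : n < n1) :
    (1 + X : ℤ[X]) ^ ((lv P i).card - 2) ∣
      ZB (P := FR R topOf t) i ∅ 0 (fun x => β x.1.1) n := by
  classical
  have h2 := S.lv_R
  let β' : P → ℕ := fun x => if topOf x = t then 0 else β x
  have e1 : (fun x : FT R topOf t => β' x.1.1) = 0 := by
    funext x
    exact if_pos x.2
  have e2 : (fun x : FR R topOf t => β' x.1.1) = (fun x : FR R topOf t => β x.1.1) := by
    funext x
    exact if_neg x.2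
  refine dvd_of_prod (A := fun a => if a < n1 then Z (FT R topOf t) i a else 0)
    (B := fun a => ZB (P := FR R topOf t) i ∅ 0 (fun x => β x.1.1) a) (α := 2)
    (β := (lv P i).card - 2) (N := n1) (u := below (FT R topOf t) i) ?_ ?_ ?_ n hn
  · rw [if_pos (by omega), Z_zero, S.lv_T]
  · intro a
    split_ifs with h
    · exact S.ordT h
    · exact dvd_zero _
  · intro n hn
    have h3 := S.bd β' (fun x hx => by
      show (if topOf x = t then 0 else β x) ≤ _
      split_ifs with h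
      · exact Nat.zero_le _
      · exact hβ x hx h) n hn
    rw [S.frz.prod S.lev_R t, e1, e2,
      show (lv P i).card = 2 + ((lv P i).card - 2) by omega] at h3
    convert h3 using 2
    · rename_i ab hab
      rw [HasAntidiagonal.mem_antidiagonal] at hab
      rw [if_pos (by omega), Z_eq_ZB]

/-- no energy of the rest below the cost of a bound -/
theorem Sp.R_zero (S : Sp i n1 R θ t c D) {β : P → ℕ} {v : P} (hvR : v ∉ R)
    (hvt : topOf v ≠ t) (hlv : i < lev v) (hv : 2 ≤ β v) {b : ℕ} (hb : b < ct i 2 v) :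
    ZB (P := FR R topOf t) i ∅ 0 (fun x => β x.1.1) b = 0 := by
  have e0 : GaussPoset.lev (⟨⟨v, hvR⟩, hvt⟩ : FR R topOf t) = GaussPoset.lev v :=
    S.frz.levR _
  refine ZB_bound_zero (z := (⟨⟨v, hvR⟩, hvt⟩ : FR R topOf t)) (by rw [e0]; exact hlv) ?_
  refine lt_of_lt_of_le hb ?_
  refine le_trans (ct_mono (i := i) (le_refl v) hv) ?_
  exact (S.frz.ctR (⟨⟨v, hvR⟩, hvt⟩ : FR R topOf t) i (β v)).ge

/-- the rest at the energy 0 -/
theorem Sp.R_lead0 (S : Sp i n1 R θ t c D) {β : P → ℕ}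
    (hβ : ∀ x, x ∉ R → topOf x ≠ t → β x = 0) :
    ZB (P := FR R topOf t) i ∅ 0 (fun x => β x.1.1) 0 =
      X ^ (below (FR R topOf t) i) * (1 + X) ^ ((lv P i).card - 2) := by
  have e1 : (fun x : FR R topOf t => β x.1.1) = 0 := by
    funext x
    exact hβ _ x.1.2 x.2
  have h3 := S.lv_R
  rw [e1, ← Z_eq_ZB, Z_zero, show (lv P i).card - 2 = (lv (FR R topOf t) i).card by omega]

/-- the rest at the cost of a bound -/
theorem Sp.R_lead (S : Sp i n1 R θ t c D) {β : P → ℕ} {v : P} (hvR : v ∉ R)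
    (hvt : topOf v ≠ t) (hlv : i + 2 ≤ lev v) (hv : β v = 2)
    (hβ : ∀ x, x ∉ R → topOf x ≠ t → x ≠ v → β x = 0) :
    ZB (P := FR R topOf t) i ∅ 0 (fun x => β x.1.1) (ct i 2 v) =
      X ^ (below (FR R topOf t) i + nst i (fun _ => 2) v) *
        (1 + X) ^ ((lv P i).card - 2 + nab (i + 2) v - nab i v) := by
  classical
  have F := S.frz
  have e0 : GaussPoset.lev (⟨⟨v, hvR⟩, hvt⟩ : FR R topOf t) = GaussPoset.lev v := F.levR _
  have e1 : (fun x : FR R topOf t => β x.1.1) = sgz (⟨⟨v, hvR⟩, hvt⟩ : FR R topOf t) 2 := by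
    funext x
    by_cases hx : x = (⟨⟨v, hvR⟩, hvt⟩ : FR R topOf t)
    · rw [hx, sgz_self]
      exact hv
    · rw [sgz_ne _ hx]
      refine hβ _ x.1.2 x.2 fun h => hx ?_
      exact Subtype.ext (Subtype.ext h)
  have hgr : GradedBelow (FR R topOf t) := gbel_sub (F.upR t) (gbel_sub F.up F.gr)
  have h3 := ZD_lead (i := i) (k := 2) (z := (⟨⟨v, hvR⟩, hvt⟩ : FR R topOf t)) hgr
    (by norm_num) (by rw [e0]; omega)
  have h4 : ct i 2 (⟨⟨v, hvR⟩, hvt⟩ : FR R topOf t) = ct i 2 v := F.ctR _ i 2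
  rw [h4] at h3
  rw [e1]
  refine Eq.trans h3 ?_
  unfold Lt
  have n0 : nab i (⟨⟨v, hvR⟩, hvt⟩ : FR R topOf t) = nab i v := F.nabR _ i
  have n1 : nab (i + 2) (⟨⟨v, hvR⟩, hvt⟩ : FR R topOf t) = nab (i + 2) v := F.nabR _ _
  have n2 : nst i (fun _ => 2) (⟨⟨v, hvR⟩, hvt⟩ : FR R topOf t) = nst i (fun _ => 2) v :=
    F.nstR _ i 2
  have h5 := S.lv_R
  simp only
  rw [n0, n1, n2, show (lv P i).card - 2 = (lv (FR R topOf t) i).card by omega]

/-- the energies below the first pole -/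
theorem Sp.main_lt (S : Sp i n1 R θ t c D) {β : P → ℕ} {E1 E2 : ℕ}
    (hT : ∀ a < E1, (1 + X : ℤ[X]) ^ 2 ∣
      ZB (P := FT R topOf t) i ∅ 0 (fun x => β x.1.1) a)
    (hZ : ∀ b < E2, ZB (P := FR R topOf t) i ∅ 0 (fun x => β x.1.1) b = 0)
    (hβR : ∀ x, x ∉ R → topOf x ≠ t → β x ≤ θ x) {n : ℕ}
    (hn : n < E1 + E2) (hnK : n < n1) :
    (1 + X : ℤ[X]) ^ (lv P i).card ∣ ZB i R 0 β n := by
  have h2 := S.lv_R
  rw [S.frz.prod S.lev_R t]
  refine Finset.dvd_sum fun ab hab => ?_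
  rw [HasAntidiagonal.mem_antidiagonal] at hab
  rcases Nat.lt_or_ge ab.2 E2 with h | h
  · rw [hZ _ h, mul_zero]
    exact dvd_zero _
  · rw [show (lv P i).card = 2 + ((lv P i).card - 2) by omega, pow_add]
    exact mul_dvd_mul (hT _ (by omega)) (S.dvd_R β hβR (by omega))

/-- the first pole -/
theorem Sp.main_eq (S : Sp i n1 R θ t c D) {β : P → ℕ} {E2 s k : ℕ} (hc : β c = 2)
    (hβT : ∀ x, x ∉ R → topOf x = t → x ≠ c → β x = 0)
    (hZ : ∀ b < E2, ZB (P := FR R topOf t) i ∅ 0 (fun x => β x.1.1) b = 0)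
    (hL : ZB (P := FR R topOf t) i ∅ 0 (fun x => β x.1.1) E2 =
      X ^ s * (1 + X) ^ ((lv P i).card - 2))
    (hβR : ∀ x, x ∉ R → topOf x ≠ t → β x ≤ θ x) (hnK : 30 + E2 < n1)
    (hk : k = s + 2 * i) :
    (1 + X : ℤ[X]) ^ (lv P i).card ∣
      ZB i R 0 β (30 + E2) - X ^ k * (1 + X) ^ ((lv P i).card - 1) := by
  classical
  have h2 := S.lv_R
  have hTk : ∀ x, x ∉ R → topOf x = t → β x ≤ 2 := by
    intro x hx ht
    by_cases h : x = c
    · rw [h, hc]
    · rw [hβT x hx ht h]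
      exact Nat.zero_le _
  have hmem : ((30, E2) : ℕ × ℕ) ∈ antidiagonal (30 + E2) := by
    rw [HasAntidiagonal.mem_antidiagonal]
  rw [S.frz.prod S.lev_R t, ← Finset.add_sum_erase _ _ hmem]
  simp only
  rw [hL]
  have h3 : (1 + X : ℤ[X]) ^ (lv P i).card ∣
      ∑ ab ∈ (antidiagonal (30 + E2)).erase (30, E2),
      ZB (P := FT R topOf t) i ∅ 0 (fun x => β x.1.1) ab.1 *
        ZB (P := FR R topOf t) i ∅ 0 (fun x => β x.1.1) ab.2 := by
    refine Finset.dvd_sum fun ab hab => ?_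
    rw [mem_erase, HasAntidiagonal.mem_antidiagonal] at hab
    obtain ⟨hne, hab⟩ := hab
    rcases Nat.lt_or_ge ab.2 E2 with h | h
    · rw [hZ _ h, mul_zero]
      exact dvd_zero _
    · rcases Nat.lt_or_ge ab.1 30 with h4 | h4
      · rw [show (lv P i).card = 2 + ((lv P i).card - 2) by omega, pow_add]
        exact mul_dvd_mul (S.T_dvd hc hTk h4) (S.dvd_R β hβR (by omega))
      · exfalso
        exact hne (Prod.ext (by simp only; omega) (by simp only; omega))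
  obtain ⟨q1, hq1⟩ := S.T_lead hc hβT
  obtain ⟨q2, hq2⟩ := h3
  rw [hq2]
  have e1 : ZB (P := FT R topOf t) i ∅ 0 (fun x => β x.1.1) 30 =
      (1 + X) ^ 2 * q1 - X ^ 13 * (1 + X) := by
    rw [← hq1]
    ring
  rw [e1]
  obtain ⟨m, hm⟩ : ∃ m, (lv P i).card = m + 2 := ⟨(lv P i).card - 2, by omega⟩
  -- the signs agree modulo `1 + X`
  have h5 : (1 + X : ℤ[X]) ∣ X ^ (13 + s) + X ^ k := by
    rw [add_comm, ← map_one (C : ℤ →+* ℤ[X]), ← sub_neg_eq_add X (C (1 : ℤ)), ← map_neg,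
      Polynomial.dvd_iff_isRoot, IsRoot.def]
    simp only [eval_add, eval_pow, eval_X]
    rw [hk, pow_add, pow_add, pow_mul]
    norm_num
  obtain ⟨q3, hq3⟩ := h5
  have h6 : (X : ℤ[X]) ^ k = (1 + X) * q3 - X ^ (13 + s) := by
    rw [← hq3]
    ring
  rw [hm, show m + 2 - 2 = m by omega, show m + 2 - 1 = m + 1 by omega, h6, pow_add X 13 s]
  refine ⟨q1 * X ^ s + q2 - q3, ?_⟩
  ring

end Pool.Agent.GaussPoset.W7
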