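import Pool.Agent.W_448w7_h22.SpB

/-!
A component with an anchor of level 15 and the label 2: the labels of the configurations
(MP_448cb3_co, S8, `j = 14`, window 7).
-/

namespace Pool.Agent.GaussPoset.W7

set_option linter.unusedSectionVars false

open Polynomial Finset Fi

universe u

variable {P : Type u} [Fintype P] [PartialOrder P] [DecidableEq P]
variable {i n1 : ℕ} {R : Finset P} {θ : P → ℕ} {t : Tops P} {c : P} {D : Finset P}

/-- the hypotheses on a set `A` of elements below the anchor at the energy `n` -/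
structure FamS (i : ℕ) (R : Finset P) (θ : P → ℕ) (t : Tops P) (c : P) (A : Finset P) (n : ℕ) :
    Prop where
  hA : ∀ z ∈ A, z ∈ bdR R ∧ z ⋖ c ∧ lev z = i + 9
  hcov : ∀ z ∈ A, ∀ x, z ⋖ x → x ∉ R ∧ 1 ≤ θ x ∧ (topOf x ≠ t → 2 ≤ θ x)
  h3 : ∀ z ∈ A, ∀ y ∈ R, ∀ x, x ∉ R → topOf x = t → y ⋖ x →
    n < ∑ w, max (ez i (hcan R θ) z w) (ez i (fun _ => 3) y w)
  hU : ∀ z ∈ A, ∀ y ∈ bdR R, y ∉ A → n < Uu i (hcan R θ) z y

variable {A : Finset P} {n : ℕ}

lemma FamS.mem (M : FamS i R θ t c A n) {z : P} (hz : z ∈ A) : z ∈ R := by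
  classical
  exact (mem_filter.mp (M.hA z hz).1).1

/-- the label -/
lemma FamS.lab (M : FamS i R θ t c A n) (S : Sp i n1 R θ t c D) {z : P} (hz : z ∈ A) :
    hcan R θ z = 2 := by
  obtain ⟨h1, h2, -⟩ := M.hA z hz
  refine le_antisymm ?_ ?_
  · have := hcan_le (θ := θ) S.cR h2
    rw [S.thc] at this
    exact this
  · obtain ⟨x, hx, hzx, h4⟩ := hcan_spec (θ := θ) h1
    have := (M.hcov z hz x hzx).2.1
    omega

/-- no element of the frozen set in the filter -/
lemma FamS.no_filter (M : FamS i R θ t c A n) (S : Sp i n1 R θ t c D) {e : P → ℕ}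
    {F : Finset P} (hV : Vd i e F) (hs : ∑ x, e x = n) {z : P} (hz : z ∈ A)
    (hd : Dgz (hcan R θ) e F z) {x : P} (hx : x ∈ R) : x ∉ F := by
  classical
  intro hxF
  obtain ⟨w, hw⟩ : ∃ w : P, w ∉ R ∧ x ≤ w := by
    obtain ⟨w, hw, hwl⟩ := exists_above' (x := x) (j := 0) (Nat.zero_le _)
    refine ⟨w, fun h => ?_, hw⟩
    have := S.lR w h
    omega
  obtain ⟨y, x', hxy, hyR, hyx', hx'R, -⟩ := exists_exit (D := R) hx hw.1 hw.2
  have hyF : y ∈ F := hV.1 x y hxy hxF
  have hyb : y ∈ bdR R := mem_filter.mpr ⟨hyR, x', hx'R, hyx'⟩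
  have hly := S.lR y hyR
  have hlz := (M.hA z hz).2.2
  have h6 := ez_le (h := hcan R θ) (z := z) hV (by omega) hd
  by_cases hyA : y ∈ A
  · have h1 := M.h3 z hz y hyR c S.cR S.cpc (M.hA y hyA).2.1
    have h5 := ez_le (h := fun _ => 3) (z := y) hV (by omega) (Or.inl hyF)
    have h7 : ∑ w, max (ez i (hcan R θ) z w) (ez i (fun _ => 3) y w) ≤ ∑ x, e x :=
      Finset.sum_le_sum fun w _ => max_le (h6 w) (h5 w)
    omega
  · have h1 := M.hU z hz y hyb hyA
    have h5 := ez_le (h := hcan R θ) (z := y) hV (by omega) (Or.inl hyF)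
    have h7 : Uu i (hcan R θ) z y ≤ ∑ x, e x :=
      Finset.sum_le_sum fun w _ => max_le (h6 w) (h5 w)
    omega

/-- the labels of configurations -/
theorem FamS.good (M : FamS i R θ t c A n) (S : Sp i n1 R θ t c D) {g e : P → ℕ}
    {F : Finset P} (hC : Cst i R g 0 e F) (hs : ∑ x, e x = n) {z : P} (hz : z ∈ A)
    (hg : 2 ≤ g z) :
    (∀ y ∈ R, ∀ x, x ∉ R → y ⋖ x → topOf x = t → g y ≤ 2) ∧
    ∀ y ∈ R, ∀ x, x ∉ R → y ⋖ x → topOf x ≠ t → g y ≤ θ x := by
  classical
  obtain ⟨hV, hR, -⟩ := hC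
  have hzR := M.mem hz
  have hlz := (M.hA z hz).2.2
  have hd : Dgz (hcan R θ) e F z := Or.inr (by
    rw [M.lab S hz, (hR z hzR).2]
    exact hg)
  have h6 := ez_le (h := hcan R θ) (z := z) hV (by omega) hd
  have G1 : ∀ y ∈ R, ∀ x, x ∉ R → y ⋖ x → topOf x = t → g y ≤ 2 := by
    intro y hy x hx hyx hxt
    by_contra hcon
    have hly := S.lR y hy
    have h1 := M.h3 z hz y hy x hx hxt hyx
    have h5 := ez_le (h := fun _ => 3) (z := y) hV (by omega) (Or.inr (by
      show 3 ≤ e y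
      rw [(hR y hy).2]
      omega))
    have h7 : ∑ w, max (ez i (hcan R θ) z w) (ez i (fun _ => 3) y w) ≤ ∑ x, e x :=
      Finset.sum_le_sum fun w _ => max_le (h6 w) (h5 w)
    omega
  refine ⟨G1, ?_⟩
  intro y hy x hx hyx hxt
  have hyb : y ∈ bdR R := mem_filter.mpr ⟨hy, x, hx, hyx⟩
  have hly := S.lR y hy
  by_cases hyA : y ∈ A
  · have h1 := G1 y hy c S.cR (M.hA y hyA).2.1 S.cpc
    have h2 := (M.hcov y hyA x hyx).2.2 hxt
    omega
  · have h1 := M.hU z hz y hyb hyA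
    have h3 : g y < hcan R θ y := by
      by_contra hcon
      have h5 := ez_le (h := hcan R θ) (z := y) hV (by omega) (Or.inr (by
        rw [(hR y hy).2]
        exact not_lt.mp hcon))
      have h7 : Uu i (hcan R θ) z y ≤ ∑ x, e x :=
        Finset.sum_le_sum fun w _ => max_le (h6 w) (h5 w)
      omega
    have h4 : hcan R θ y ≤ θ x + 1 := hcan_le hx hyx
    omega

lemma FamS.hmin (M : FamS i R θ t c A n) (S : Sp i n1 R θ t c D) {z : P} (hz : z ∈ A) :
    ∀ x ∈ R, z ≤ x → x = z := by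
  intro x hx hzx
  by_contra hne
  have h1 : z < x := lt_of_le_of_ne hzx (Ne.symm hne)
  obtain ⟨w, hw, hwx⟩ := Hul.exists_cov h1
  exact S.frz.up w x hwx (M.hcov z hz w hw).1 hx

/-- the values of the bounds made by the label function of one element -/
lemma bg_single {z : P} (hzR : z ∈ R) (x : P) :
    (z ⋖ x → bg R (sgz z 2) 0 x = 2) ∧ (¬ z ⋖ x → bg R (sgz z 2) 0 x = 0) := by
  classical
  have hle : ∀ y, sgz z 2 y ≤ 2 := by
    intro y
    unfold sgz
    split_ifs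
    · exact le_rfl
    · exact Nat.zero_le _
  constructor
  · intro hx
    refine le_antisymm (bg_le (Nat.zero_le _) fun y _ _ => hle y) ?_
    have := le_bg' (g := sgz z 2) 0 hzR hx
    rwa [sgz_self] at this
  · intro hx
    refine Nat.le_zero.mp (bg_le (Nat.zero_le _) fun y hy hyx => ?_)
    by_cases h1 : y = z
    · subst h1
      exact absurd hyx hx
    · rw [sgz_ne _ h1]

end Pool.Agent.GaussPoset.W7
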