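import Pool.Agent.W_448w7_h22.SpC

/-!
A component with an anchor of level 15 and the label 2: **the family theorem**
(MP_448cb3_co, S8, `j = 14`, window 7).
-/

namespace Pool.Agent.GaussPoset.W7

set_option linter.unusedSectionVars false

open Polynomial Finset Fi

universe u

variable {P : Type u} [Fintype P] [PartialOrder P] [DecidableEq P]
variable {i n1 : ℕ} {R : Finset P} {θ : P → ℕ} {t : Tops P} {c : P} {D : Finset P}
variable {A : Finset P} {n : ℕ}

lemma eq_sgz {g : P → ℕ} {z : P} (hz : 2 ≤ g z) (hs : ∑ x, g x = 2) : g = sgz z 2 := by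
  have h1 : g z ≤ ∑ x, g x := Finset.single_le_sum (fun _ _ => Nat.zero_le _) (mem_univ z)
  funext x
  by_cases hx : x = z
  · rw [hx, sgz_self]
    omega
  · rw [sgz_ne _ hx]
    have h7 : g z + g x ≤ ∑ x, g x := by
      rw [← Finset.add_sum_erase univ g (mem_univ z)]
      exact Nat.add_le_add_left (Finset.single_le_sum (f := g) (fun _ _ => Nat.zero_le _)
        (mem_erase.mpr ⟨hx, mem_univ x⟩)) _
    omega

/-- the contribution of a label function -/
theorem FamS.term_dvd (M : FamS i R θ t c A n) (S : Sp i n1 R θ t c D)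
    (hD : ∀ d ∈ D, topOf d = t) (hn : n ≤ n1) {g : P → ℕ} (hg0 : ∀ x, x ∉ R → g x = 0) {z : P}
    (hz : z ∈ A) (hg : 2 ≤ g z) {p : Prop} {k : ℕ} (hk : Kd i R θ t c D n z p k)
    (hne : ¬ (p ∧ g = sgz z 2)) : (1 + X : ℤ[X]) ^ (lv P i).card ∣ ZB i R g 0 n := by
  classical
  have hzR := M.mem hz
  obtain ⟨hzb, hzc, hlz⟩ := M.hA z hz
  by_cases hex : ∃ e F, Cst i R g 0 e F ∧ ∑ x, e x = n
  · obtain ⟨e, F', hC, hs⟩ := hex
    obtain ⟨G1, G2⟩ := M.good S hC hs hz hg
    by_cases hc : ∀ x ∈ R, ∀ y ∈ R, x ≤ y → g x ≤ g y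
    · have hsum : g z ≤ ∑ x, g x := Finset.single_le_sum (fun _ _ => Nat.zero_le _) (mem_univ z)
      have hle : ∑ x, g x ≤ n := by
        rw [← hs]
        refine Finset.sum_le_sum fun x _ => ?_
        by_cases hx : x ∈ R
        · exact (hC.2.1 x hx).2.ge
        · rw [hg0 x hx]
          exact Nat.zero_le _
      obtain ⟨n', hn'⟩ : ∃ n', n = n' + ∑ x, g x := ⟨n - ∑ x, g x, by omega⟩
      have hβc : bg R g 0 c = 2 := le_antisymm
        (bg_le (Nat.zero_le _) fun y hy hyc => G1 y hy c S.cR hyc S.cpc)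
        (hg.trans (le_bg' 0 hzR hzc))
      have hβT : ∀ x, x ∉ R → topOf x = t → bg R g 0 x ≤ 2 := fun x hx ht =>
        bg_le (Nat.zero_le _) fun y hy hyx => G1 y hy x hx hyx ht
      have hβR : ∀ x, x ∉ R → topOf x ≠ t → bg R g 0 x ≤ θ x := fun x hx ht =>
        bg_le (Nat.zero_le _) fun y hy hyx => G2 y hy x hx hyx ht
      have hshift := ZB_shift 0 S.low S.lev_R hg0 hc n'
      cases hk with
      | P h1 h2 h3 h4 =>
        rw [hn', hshift]
        refine S.main_lt (E1 := 30) (E2 := 0) (fun a ha => S.T_dvd hβc hβT ha)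
          (fun b hb => absurd hb (Nat.not_lt_zero b)) hβR ?_ (by omega)
        by_contra hcon
        exact hne ⟨h3.mpr (by omega), eq_sgz hg (by omega)⟩
      | O d h1 h2 h3 h4 h5 h6 =>
        have hdR : d ∉ R := (M.hcov z hz d h2).1
        have hdt := hD d h1
        have hβd : bg R g 0 d = 2 := le_antisymm
          (bg_le (Nat.zero_le _) fun y hy hyd => G1 y hy d hdR hyd hdt)
          (hg.trans (le_bg' 0 hzR h2))
        rw [hn', hshift]
        exact S.main_lt (E1 := 50) (E2 := 0)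
          (fun a ha => S.T_dvd2 hβc hβT h1 hdR hdt hβd hlz h6 h3 ha)
          (fun b hb => absurd hb (Nat.not_lt_zero b)) hβR (by omega) (by omega)
      | X v h1 h2 h3 h4 h5 h6 h7 h8 =>
        have hlv : lev v = i + 8 := by
          have := S.gr.lev_covBy h1
          omega
        rw [hn', hshift]
        refine S.main_lt (E1 := 30) (E2 := ct i 2 v) (fun a ha => S.T_dvd hβc hβT ha)
          (fun b hb => S.R_zero h3 h4 (by omega) (hg.trans (le_bg' 0 hzR h1)) hb) hβR ?_
          (by omega)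
        by_contra hcon
        exact hne ⟨h7.mpr (by omega), eq_sgz hg (by omega)⟩
      | Y h1 h2 => exact h1 g hg0 hg G1 G2
    · rw [ZB_zero_of_not_compat 0 S.lev_R hc]
      exact dvd_zero _
  · have : ZB i R g 0 n = 0 := by
      unfold ZB
      refine Finset.sum_eq_zero fun F _ => ?_
      rw [Finset.filter_eq_empty_iff.mpr, Finset.sum_empty]
      intro e he hC
      rw [mem_piAntidiag] at he
      exact hex ⟨e, F, hC, he.1⟩
    rw [this]
    exact dvd_zero _

/-- the contribution of the label function of one element at its pole -/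
theorem FamS.term_lead (M : FamS i R θ t c A n) (S : Sp i n1 R θ t c D) (hn : n ≤ n1) {z : P}
    (hz : z ∈ A) {p : Prop} {k : ℕ} (hk : Kd i R θ t c D n z p k) (hp : p) :
    (1 + X : ℤ[X]) ^ (lv P i).card ∣
      ZB i R (sgz z 2) 0 n - X ^ k * (1 + X) ^ ((lv P i).card - 1) := by
  classical
  have hzR := M.mem hz
  obtain ⟨hzb, hzc, hlz⟩ := M.hA z hz
  have hsum : ∑ x, sgz z 2 x = 2 := by
    unfold sgz
    rw [Finset.sum_ite_eq' univ z, if_pos (mem_univ z)]
  have hg0 : ∀ x, x ∉ R → sgz z 2 x = 0 := fun x hx => sgz_ne _ (fun h => hx (h ▸ hzR))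
  have hc : ∀ x ∈ R, ∀ y ∈ R, x ≤ y → sgz z 2 x ≤ sgz z 2 y := by
    intro x hx y hy hxy
    by_cases h1 : x = z
    · subst h1
      rw [M.hmin S hz y hy hxy]
    · rw [sgz_ne _ h1]
      exact Nat.zero_le _
  have hval := fun x => bg_single (R := R) hzR x
  have hbel := S.below_R
  have hT : ∀ x, x ∉ R → topOf x = t → x ≠ c → (∀ y, z ⋖ y → topOf y = t → y = c) →
      bg R (sgz z 2) 0 x = 0 := fun x _ ht hxc hcov =>
    (hval x).2 fun hzx => hxc (hcov x hzx ht)
  cases hk with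
  | P h1 h2 h3 h4 =>
    have hn32 := h3.mp hp
    have hshift := ZB_shift 0 S.low S.lev_R hg0 hc 30
    rw [hsum] at hshift
    subst hn32
    rw [show (32 : ℕ) = 30 + 2 by norm_num, hshift]
    have hR0 : ∀ x, x ∉ R → topOf x ≠ t → bg R (sgz z 2) 0 x = 0 := fun x _ ht =>
      (hval x).2 fun hzx => ht (by rw [h1 x hzx]; exact S.cpc)
    exact S.main_eq (E2 := 0) (s := below (FR R topOf t) i) (k := k) ((hval c).1 hzc)
      (fun x hx ht hxc => hT x hx ht hxc fun y hy _ => h1 y hy)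
      (fun b hb => absurd hb (Nat.not_lt_zero b)) (S.R_lead0 hR0)
      (fun x hx ht => by rw [hR0 x hx ht]; exact Nat.zero_le _) (by omega)
      (by have := h4 hp; omega)
  | O d h1 h2 h3 h4 h5 h6 => exact absurd hp h5
  | X v h1 h2 h3 h4 h5 h6 h7 h8 =>
    have hlv : lev v = i + 8 := by
      have := S.gr.lev_covBy h1
      omega
    have hnv := h7.mp hp
    obtain ⟨h9, h10⟩ := h8 hp
    have hshift := ZB_shift 0 S.low S.lev_R hg0 hc (30 + ct i 2 v)
    rw [hsum] at hshift
    rw [hnv, show 32 + ct i 2 v = 30 + ct i 2 v + 2 by ring, hshift]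
    have hR0 : ∀ x, x ∉ R → topOf x ≠ t → x ≠ v → bg R (sgz z 2) 0 x = 0 :=
      fun x _ ht hxv => (hval x).2 fun hzx => by
        rcases h2 x hzx with h | h
        · exact ht (by rw [h]; exact S.cpc)
        · exact hxv h
    have hlead := S.R_lead h3 h4 (by omega) ((hval v).1 h1) hR0
    rw [show (lv P i).card - 2 + nab (i + 2) v - nab i v = (lv P i).card - 2 by omega] at hlead
    exact S.main_eq (E2 := ct i 2 v) (s := below (FR R topOf t) i + nst i (fun _ => 2) v)
      (k := k) ((hval c).1 hzc)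
      (fun x hx ht hxc => hT x hx ht hxc fun y hy hyt => by
        rcases h2 y hy with h | h
        · exact h
        · exact absurd (by rw [← h]; exact hyt) h4)
      (fun b hb => S.R_zero h3 h4 (by omega) ((hval v).1 h1).ge hb) hlead
      (fun x hx ht => by
        by_cases hxv : x = v
        · rw [hxv, (hval v).1 h1]
          exact h5
        · rw [hR0 x hx ht hxv]
          exact Nat.zero_le _) (by omega) (by omega)
  | Y h1 h2 => exact absurd hp h2

/-- **The family theorem.** -/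
theorem Sp.fam (S : Sp i n1 R θ t c D) (hD : ∀ d ∈ D, topOf d = t) {A : Finset P} {n : ℕ}
    (hn : n ≤ n1)
    (hA : ∀ z ∈ A, z ∈ bdR R ∧ z ⋖ c ∧ lev z = i + 9)
    (hcov : ∀ z ∈ A, ∀ x, z ⋖ x → x ∉ R ∧ 1 ≤ θ x ∧ (topOf x ≠ t → 2 ≤ θ x))
    (h3 : ∀ z ∈ A, ∀ y ∈ R, ∀ x, x ∉ R → topOf x = t → y ⋖ x →
      n < ∑ w, max (ez i (hcan R θ) z w) (ez i (fun _ => 3) y w))
    (hU : ∀ z ∈ A, ∀ y ∈ bdR R, y ∉ A → n < Uu i (hcan R θ) z y)
    {p : P → Prop} [DecidablePred p] {k : P → ℕ}
    (hk : ∀ z ∈ A, Kd i R θ t c D n z (p z) (k z)) :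
    (1 + X : ℤ[X]) ^ (lv P i).card ∣
      ZF i (hcan R θ) A n - ∑ z ∈ A.filter p, X ^ (k z) * (1 + X) ^ ((lv P i).card - 1) := by
  classical
  have M : FamS i R θ t c A n := ⟨hA, hcov, h3, hU⟩
  have hAR : A ⊆ R := fun z hz => M.mem hz
  have hlab : ZF i (hcan R θ) A n =
      ∑ g ∈ Fintype.piFinset (fun _ : P => range (n + 1)),
        if (∀ x, x ∉ R → g x = 0) ∧ (∃ z ∈ A, hcan R θ z ≤ g z) then ZB i R g 0 n else 0 := by
    refine ZF_labels hAR ?_
    rintro e F hV hs ⟨z, hz, hd⟩ x hx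
    exact M.no_filter S hV hs hz hd hx
  have hn2 : ∀ z ∈ A, p z → 2 ≤ n := by
    intro z hz hp
    cases hk z hz with
    | P h1 h2 h3 h4 => have := h3.mp hp; omega
    | O d h1 h2 h3 h4 h5 h6 => exact absurd hp h5
    | X v h1 h2 h3 h4 h5 h6 h7 h8 => have := h7.mp hp; omega
    | Y h1 h2 => exact absurd hp h2
  set I := (A.filter p).image (fun z => sgz z 2) with hI
  have hsub : I ⊆ Fintype.piFinset (fun _ : P => range (n + 1)) := by
    intro g hg
    obtain ⟨z, hz, rfl⟩ := mem_image.mp hg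
    rw [mem_filter] at hz
    have := hn2 z hz.1 hz.2
    rw [Fintype.mem_piFinset]
    intro x
    rw [mem_range]
    unfold sgz
    split_ifs <;> omega
  have hinj : ∀ z ∈ A.filter p, ∀ z' ∈ A.filter p, sgz z 2 = sgz z' 2 → z = z' := by
    intro z _ z' _ h
    by_contra hzz
    have h1 := congrFun h z
    rw [sgz_self, sgz_ne _ hzz] at h1
    omega
  rw [hlab, ← Finset.sum_sdiff hsub, hI, Finset.sum_image hinj, ← hI, add_sub_assoc,
    ← Finset.sum_sub_distrib]
  refine dvd_add (Finset.dvd_sum fun g hg => ?_) (Finset.dvd_sum fun z hz => ?_)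
  · split_ifs with hh
    · obtain ⟨h1, z, hz, h4⟩ := hh
      rw [M.lab S hz] at h4
      refine M.term_dvd S hD hn h1 hz h4 (hk z hz) fun h5 => ?_
      refine (mem_sdiff.mp hg).2 ?_
      rw [hI, h5.2]
      exact mem_image_of_mem _ (mem_filter.mpr ⟨hz, h5.1⟩)
    · exact dvd_zero _
  · rw [mem_filter] at hz
    rw [if_pos]
    · exact M.term_lead S hn hz.1 (hk z hz.1) hz.2
    · refine ⟨fun x hx => sgz_ne _ (fun h => hx (h ▸ hAR hz.1)), z, hz.1, ?_⟩
      rw [sgz_self, M.lab S hz.1]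

end Pool.Agent.GaussPoset.W7
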