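import Pool.Agent.W_448w7_h94.WiG
import Pool.Agent.W_448s7s_h5.TvH

/-!
The anchors of the strips `La7` (MP_448cb3_co, S8, `j = 14`, window 7): bounded cleanness of the
system with twins, the part of a component off the frozen set.
-/

namespace Pool.Agent.GaussPoset.W7

set_option linter.unusedSectionVars false

open Polynomial Finset Fi Cl Dd Wd

universe u

variable {P : Type u} [Fintype P] [PartialOrder P] [DecidableEq P]

section Bounds

variable {ι : Type*}

/-- bounded cleanness -/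
theorem bounds_of_compTL [Fintype ι] [DecidableEq ι] {i : ℕ} {R : Finset P}
    (hR : ∀ x y, x ≤ y → y ∈ R → x ∈ R) (hRlev : ∀ x ∈ R, i < lev x)
    (cp : P → ι) (hcp : ∀ x y, x ≤ y → x ∉ R → cp x = cp y) (b : ι → ℕ) (θ : P → ℕ)
    (B : P → Prop) (hBR : ∀ x ∈ R, ¬ B x) (Tw : Finset (P × P)) (n0 : ℕ)
    (H : ∀ k, F6.CompDataTL R cp k i (b k) n0 θ B Tw)
    (htw : ∀ t ∈ Tw, TwinPair i θ n0 t.1 t.2) (hmin : ∀ t ∈ Tw, ∀ y < t.2, y ∈ R)
    (htR : ∀ t ∈ Tw, t.1 ∉ R ∧ t.2 ∉ R)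
    (β : P → ℕ) (hβ : ∀ x, x ∉ R → β x ≤ θ x) (n : ℕ) (hn : n < n0) :
    (1 + X : ℤ[X]) ^ (∑ k, b k) ∣ ZB i R 0 β n := by
  classical
  let θ' : P → ℕ := fun x => if x ∈ R then 0 else θ x
  have hθ' : ∀ x, x ∉ R → θ' x = θ x := fun x hx => if_neg hx
  have hθ0 : ∀ x, 1 ≤ θ' x → x ∉ R := by
    intro x hx hxR
    have : θ' x = 0 := if_pos hxR
    omega
  have hlow : ∀ D ∈ {D | Good i R B D}, ∀ x y, x ≤ y → y ∈ D → x ∈ D := fun D hD => hD.1
  have hlev : ∀ D ∈ {D | Good i R B D}, ∀ x ∈ D, i < lev x := fun D hD => hD.2.2.1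
  have hRR : R ∈ {D | Good i R B D} := ⟨hR, Subset.refl R, hRlev, hBR⟩
  refine dvd_ZB_bounds_twins i _ n0 {D | Good i R B D} θ' Tw hlow hlev ?_ ?_ ?_ ?_ ?_ ?_
    R hRR β (fun x hx => by rw [hθ' x hx]; exact hβ x hx) n hn
  · intro x hx
    have hxR := hθ0 x hx
    rw [hθ' x hxR] at hx
    exact (H (cp x)).lev x hxR rfl hx
  · intro D hD hbr n hn
    rw [ZB_off hD.1 hD.2.2.1]
    have hc : ∀ x y : {x : P // x ∉ D}, x ≤ y → cp (x : P) = cp (y : P) := fun x y hxy =>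
      hcp x y hxy fun h => x.2 (hD.2.1 h)
    choose f hf hf' using fun k => exists_norm {x : {x : P // x ∉ D} // cp (x : P) = k} i
    rw [Z_prod (fun x : {x : P // x ∉ D} => cp (x : P)) hc i f hf n]
    refine Lo.prod (n0 := n0) univ (fun k _ n' hn' => ?_) n hn
    rw [hf']
    exact (H k).clean D hD hbr inferInstance n' hn'
  · intro D hD x hx hθx
    have hxR := hθ0 x hθx
    rw [hθ' x hxR] at hθx
    have hlx := (H (cp x)).lev x hxR rfl hθx
    refine ⟨?_, hD.2.1.trans subset_union_left, ?_, ?_⟩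
    · intro a c hac hc
      rw [mem_union, mem_dnf] at hc ⊢
      rcases hc with hc | hc
      · exact Or.inl (hD.1 a c hac hc)
      · exact Or.inr (hac.trans hc)
    · intro a ha
      rw [mem_union, mem_dnf] at ha
      rcases ha with ha | ha
      · exact hD.2.2.1 a ha
      · rcases eq_or_lt_of_le ha with h | h
        · rw [h]; exact hlx
        · have := lev_strictAnti h; omega
    · intro a ha
      rw [mem_union, mem_dnf] at ha
      rcases ha with ha | ha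
      · exact hD.2.2.2 a ha
      · by_cases haR : a ∈ R
        · exact hBR a haR
        · exact (H (cp x)).base x hxR rfl hθx a ha haR
  · intro D hD x hx hθx y hyx hyD x' hyx' hx'x
    have hxR := hθ0 x hθx
    have hyR : y ∉ R := fun h => hyD (hD.2.1 h)
    have hx'R : x' ∉ R := fun h => hyR (hR y x' hyx'.1.le h)
    rw [hθ' x hxR] at hθx ⊢
    rw [hθ' x' hx'R]
    exact (H (cp x)).step x hxR rfl hθx y hyx hyR x' hx'R hyx' hx'x
  · intro t ht
    have h1 := htR t ht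
    have h2 := htw t ht
    refine ⟨h2.ne, h2.up, ?_, ?_, ?_, ?_, ?_⟩
    · rw [hθ' _ h1.1]; exact h2.one_le
    · rw [hθ' _ h1.1, hθ' _ h1.2]; exact h2.eq
    · rw [hθ' _ h1.1]; exact h2.le
    · rw [hθ' _ h1.1]; exact h2.costF
    · rw [hθ' _ h1.1]; exact h2.costT
  · intro t ht D hD y hy
    exact hD.2.1 (hmin t ht y hy)

variable {i n0 : ℕ} {N : Tops P → Finset P} {b : Tops P → ℕ} {θ : Tops P → P → ℕ}
  {B : Tops P → P → Prop} {Y : Finset P} {τ : P → P}

/-- bounded cleanness from the data of all tops and twins of natural elements -/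
theorem bounds_of_topsL (HN : NatSys N) (hRlev : ∀ x ∈ unnat N, i < lev x)
    (H : ∀ t, CompDataL (unnat N) topOf t i (b t) n0 (fun x => θ (topOf x) x)
      (fun x => x ∉ unnat N ∧ B (topOf x) x))
    (T : TwSys (unnat N) Y topOf τ)
    (htw : ∀ x ∈ Y, TwinPair i (thX Y τ (fun x => θ (topOf x) x)) n0 (τ x) x)
    (β : P → ℕ) (hβ : ∀ x, x ∉ unnat N \ Y → β x ≤ thX Y τ (fun x => θ (topOf x) x) x) (n : ℕ)
    (hn : n < n0) : (1 + X : ℤ[X]) ^ (∑ t, b t) ∣ ZB i (unnat N \ Y) 0 β n := by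
  refine bounds_of_compTL (T.lower HN.lower) (fun x hx => hRlev x (mem_sdiff.mp hx).1) topOf
    (T.cp' HN.cp) b _ (fun x => x ∉ unnat N ∧ B (topOf x) x)
    (fun x hx h => h.1 (mem_sdiff.mp hx).1) (pairsX Y τ) n0 ?_ ?_ ?_ ?_ β hβ n hn
  · intro t
    exact F6.toTwinsL (H t) T HN.lower hRlev (fun x hx h => h.1 hx)
  · intro t ht
    rw [mem_pairsX] at ht
    have h1 := htw t.2 ht.1
    rw [← ht.2] at h1
    exact h1
  · intro t ht y hy
    rw [mem_pairsX] at ht
    rw [mem_sdiff]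
    exact ⟨HN.lower y _ hy.le (T.sub ht.1), fun h => T.anti _ ht.1 y h hy⟩
  · intro t ht
    rw [mem_pairsX] at ht
    rw [mem_sdiff, mem_sdiff, ht.2]
    exact ⟨fun h => T.nat _ ht.1 h.1, fun h => h.2 ht.1⟩

end Bounds

variable {r n0 : ℕ} {N : Tops P → Finset P} {b : Tops P → ℕ} {θ : Tops P → P → ℕ}

/-- bounded cleanness -/
theorem WL.bds (W : WL r n0 N b θ) (β : P → ℕ) (hβ : ∀ x, x ∉ r2 (2 * 7) N → β x ≤ th2 N θ x)
    (n : ℕ) (hn : n < n0) : (1 + X : ℤ[X]) ^ (lv P 7).card ∣ ZB 7 (r2 (2 * 7) N) 0 β n := by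
  obtain ⟨B, hB⟩ := W.compL
  have h := bounds_of_topsL W.natSys (fun x hx => by
    have := W.lt_lev hx
    omega) hB W.twSys (fun x hx => W.twinPair hx) β hβ n hn
  rw [W.sum_b] at h
  exact h

lemma WL.r2_low (W : WL r n0 N b θ) : ∀ x y : P, x ≤ y → y ∈ r2 (2 * 7) N → x ∈ r2 (2 * 7) N :=
  W.twSys.lower W.natSys.lower

lemma WL.r2_cp (W : WL r n0 N b θ) : ∀ x y : P, x ≤ y → x ∉ r2 (2 * 7) N → topOf x = topOf y :=
  W.twSys.cp' W.natSys.cp

/-- the part of a strip `La7` off the frozen set -/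
lemma LaD.off (W : WL r n0 N b θ) {t : Tops P} {lo hi : ℕ → ℕ} {e : ℕ → ℕ → P} {A : Finset P}
    (L : LaD n0 N (θ t) t lo hi e A) {x : P} :
    x ∉ r2 (2 * 7) N ∧ topOf x = t ↔ x ∈ N t := by
  constructor
  · rintro ⟨h1, h2⟩
    by_cases hu : x ∈ unnat N
    · exfalso
      have hY : x ∈ twY (2 * 7) N := by
        by_contra hY
        exact h1 (mem_sdiff.mpr ⟨hu, hY⟩)
      have h3 := mem_twY.mp hY
      have h4 := twT_spec h3.2.2
      have h5 : topOf (twT N x) = t := (W.twSys.cp x hY).trans h2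
      have h6 : lev (twT N x) = 15 := by
        rw [W.twSys.lev hY]
        exact h3.2.1
      have h7 : Lx n0 N θ (twT N x) := by
        refine ⟨W.natSys.mem_iff.mpr ⟨h4.1, rfl⟩, ?_⟩
        rw [h5]
        exact ⟨lo, hi, e, A, L⟩
      exact Lx.tw W h7 h6 hu h4.2
    · exact W.natSys.mem_iff.mpr ⟨hu, h2⟩
  · intro hx
    have h1 := W.natSys.mem_iff.mp hx
    exact ⟨fun h => h1.1 (mem_sdiff.mp h).1, h1.2⟩

lemma LaD.row {t : Tops P} {lo hi : ℕ → ℕ} {e : ℕ → ℕ → P} {A : Finset P}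
    (W : WL r n0 N b θ) (L : LaD n0 N (θ t) t lo hi e A) {l : ℕ} (hl : l ≤ 2 * 7) :
    (univ.filter (fun x : P => lev x = l ∧ topOf x = t)).card = hi l + 1 - lo l := by
  classical
  rw [← L.comp.card_row hl]
  congr 1
  ext x
  rw [mem_filter, mem_filter, mem_lv]
  constructor
  · rintro ⟨-, h1, h2⟩
    exact ⟨h1, h2 ▸ le_topOf x⟩
  · rintro ⟨h1, h2⟩
    refine ⟨mem_univ x, h1, W.natSys.topOf_eq ?_⟩
    rw [L.nat]
    exact mem_union_left _ (mem_lowPart.mpr ⟨h2, by omega⟩)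

/-- the two elements of level 7 -/
lemma LaD.two {t : Tops P} {lo hi : ℕ → ℕ} {e : ℕ → ℕ → P} {A : Finset P}
    (W : WL r n0 N b θ) (L : LaD n0 N (θ t) t lo hi e A) :
    (univ.filter (fun x : P => lev x = 7 ∧ topOf x = t)).card = 2 := by
  rw [LaD.row W L (by omega), L.word.row.1, L.word.row.2]

/-- the elements of level below 7 -/
lemma LaD.bel {t : Tops P} {lo hi : ℕ → ℕ} {e : ℕ → ℕ → P} {A : Finset P}
    (W : WL r n0 N b θ) (L : LaD n0 N (θ t) t lo hi e A) :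
    (univ.filter (fun x : P => lev x < 7 ∧ topOf x = t)).card = 7 := by
  classical
  rw [Finset.card_eq_sum_card_fiberwise (f := fun x : P => lev x) (t := range 7)
    (fun x hx => by
      have := (mem_filter.mp (mem_coe.mp hx)).2.1
      exact mem_coe.mpr (mem_range.mpr this))]
  have h : ∀ l ∈ range 7, ((univ.filter (fun x : P => lev x < 7 ∧ topOf x = t)).filter
      (fun x => lev x = l)).card = 1 := by
    intro l hl
    rw [mem_range] at hl
    have h1 := LaD.row W L (l := l) (by omega)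
    have h2 := L.word.trunk l hl
    rw [h2.1, h2.2] at h1
    refine Eq.trans ?_ h1
    congr 1
    ext x
    rw [mem_filter, mem_filter, mem_filter]
    constructor
    · rintro ⟨⟨-, -, h3⟩, h4⟩
      exact ⟨mem_univ x, h4, h3⟩
    · rintro ⟨-, h4, h3⟩
      exact ⟨⟨mem_univ x, by omega, h3⟩, h4⟩
  rw [Finset.sum_congr rfl h]
  simp

lemma anc_chk : ∀ a < 30, La7lv.getD a 0 ≤ 8 → (La7um.getD 28 0).testBit a = true ∨
    (La7um.getD 29 0).testBit a = true := by decide +kernel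

/-- the low elements of the strip are above the anchor -/
lemma LaD.out (W : WL r n0 N b θ) {t : Tops P} {lo hi : ℕ → ℕ} {e : ℕ → ℕ → P} {A : Finset P}
    (L : LaD n0 N (θ t) t lo hi e A) {c : P} (hc : Sg.Mk e c 805306368) {x : P}
    (hx : x ≤ (t : P)) (hl : lev x ≤ 8) : c ≤ x := by
  obtain ⟨a, ha, rfl⟩ := Sg.La7_surj L.word L.comp hx (by omega)
  have hcod := Sg.La7_cod L.word L.comp W.gt.H W.gt.good t.2
  have h1 := Sg.La7_le L.word L.comp ha
  have key : ∀ k < 30, Nat.testBit 805306368 k = true → (La7um.getD k 0).testBit a = true →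
      c ≤ Sg.ce e a := by
    intro k hk hbit hb
    have h2 : c ⋖ Sg.ce e k := (hc.2 _).mpr ⟨k, hk, hbit, rfl⟩
    exact h2.1.le.trans ((hcod.le_iff le_rfl La7_us.cv Sg.La7_um hk ha).mpr hb)
  rcases anc_chk a ha (by rw [← h1.2]; exact hl) with h2 | h2
  · exact key 28 (by norm_num) (by decide +kernel) h2
  · exact key 29 (by norm_num) (by decide +kernel) h2

/-- the window 9 data of an anchor (F2) -/
structure F2D (t : P) (A : Finset P) (c : P) (D : Finset P) : Prop where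
  cls : ∀ L : Finset P, (∀ x ∈ L, x ∈ lowPart 14 t ∪ A) → (∀ x ∈ L, ∀ y, x ≤ y → y ∈ L) →
    c ∈ L → ∀ n < 2, (1 + X : ℤ[X]) ^ 2 ∣ Z {x // x ∈ L} 9 n
  cls2 : ∀ L : Finset P, (∀ x ∈ L, x ∈ lowPart 14 t ∪ A) → (∀ x ∈ L, ∀ y, x ≤ y → y ∈ L) →
    c ∈ L → (∃ d ∈ D, d ∈ L) → ∀ n < 12, (1 + X : ℤ[X]) ^ 2 ∣ Z {x // x ∈ L} 9 n
  ld : ∀ L : Finset P, (∀ x, x ∈ L ↔ c ≤ x) →
    (1 + X : ℤ[X]) ^ 2 ∣ Z {x // x ∈ L} 9 2 + X ^ 13 * (1 + X)

/-- the anchors, up to the window 9 -/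
theorem WL.sp_of (W : WL r n0 N b θ) {c : P} {lo hi : ℕ → ℕ} {e : ℕ → ℕ → P} {A : Finset P}
    (L : LaD n0 N (θ (topOf c)) (topOf c) lo hi e A) (hcA : c ∈ A)
    (hmk : Sg.Mk e c 805306368) (F : F2D (topOf c : P) A c (Dn n0 N c)) :
    Sp 7 n0 (r2 (2 * 7) N) (th2 N θ) (topOf c) c (Dn n0 N c) := by
  have hcN : c ∈ N (topOf c) := by
    rw [L.nat]
    exact mem_union_right _ hcA
  have hcR := (LaD.off W L).mpr hcN
  have hLN : ∀ U : Finset P, (∀ x ∈ U, x ∉ r2 (2 * 7) N ∧ topOf x = topOf c) →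
      ∀ x ∈ U, x ∈ lowPart 14 (topOf c : P) ∪ A := by
    intro U hU x hx
    have h1 := (LaD.off W L).mp (hU x hx)
    rw [L.nat] at h1
    exact h1
  exact
    { gr := W.gt.H.gradedBelow
      low := W.r2_low
      lR := fun x hx => W.lt_lev (mem_sdiff.mp hx).1
      hcp := W.r2_cp
      bd := W.bds
      two := LaD.two W L
      bel := LaD.bel W L
      clT := by
        intro U hU n hn
        have hUN : U = lowPart (2 * 7) (topOf c : P) ∪ A := by
          rw [← L.nat]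
          ext x
          rw [hU, LaD.off W L]
        rw [hUN]
        refine L.dat.loc.clean _ Subset.rfl ?_ (fun x hx _ => hx) (fun x hx _ => hx) n hn
        have := L.up W
        rwa [L.nat] at this
      cR := hcR.1
      cpc := rfl
      clev := hmk.1
      cct := (Tv.c34_facts L.word L.comp W.gt (topOf c).2 hmk).1
      thc := by
        have h1 : c ∉ twY (2 * 7) N := fun h => (W.natSys.mem_iff.mp hcN).1 (mem_twY.mp h).1
        unfold th2
        rw [thX_not h1]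
        exact L.dat.th.c34 c hcA hmk
      out := by
        intro x hxR hxt hcx
        by_contra hcon
        exact hcx (LaD.out W L hmk (hxt ▸ le_topOf x) (by omega))
      cls := fun U h1 h2 h3 => F.cls U (hLN U h1) h2 h3
      cls2 := fun U h1 h2 h3 => F.cls2 U (hLN U h1) h2 h3
      ld := F.ld }

/-- the patterns of an anchor -/
theorem WL.anc_pat (W : WL r n0 N b θ) {c : P} {lo hi : ℕ → ℕ} {e : ℕ → ℕ → P} {A : Finset P}
    (L : LaD n0 N (θ (topOf c)) (topOf c) lo hi e A) (hcA : c ∈ A)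
    (hmk : Sg.Mk e c 805306368) :
    JA e A c ∨ (n0 ≤ 31 ∧ ∃ c', JB e A c c' ∨ JB e A c' c) := by
  rcases L.dat.pat with ⟨c', J⟩ | ⟨hn, c1, c2, J⟩
  · left
    have : c' = c := J.uniq c' J.cA c hcA _ J.hc hmk
    exact this ▸ J
  · right
    refine ⟨hn, ?_⟩
    have hcod := Sg.La7_cod L.word L.comp W.gt.H W.gt.good (topOf c).2
    have hne : ∀ m, Sg.Mk e c m → Nat.testBit m 28 = false → False := by
      intro m hm hb
      have h1 : c ⋖ Sg.ce e 28 := (hmk.2 _).mpr ⟨28, by norm_num, by decide +kernel, rfl⟩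
      obtain ⟨k, hk, hbit, he⟩ := (hm.2 _).mp h1
      have h2 : k = 28 := hcod.inj k hk 28 (by norm_num) he
      rw [h2, hb] at hbit
      exact absurd hbit (by simp)
    rcases J.all c hcA with h | h | h | h
    · exact absurd h (fun h => hne _ h (by decide +kernel))
    · exact absurd h (fun h => hne _ h (by decide +kernel))
    · exact ⟨c2, Or.inl (h ▸ J)⟩
    · exact ⟨c1, Or.inr (h ▸ J)⟩

end Pool.Agent.GaussPoset.W7
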