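import Pool.Agent.W_448w7_h22.SpE
import Pool.Agent.W_448w7_h36.LaC
import Pool.Agent.W_448w7_h36.LaD

/-!
The anchors of the strips `La7` (MP_448cb3_co, S8, `j = 14`, window 7): **the component of an
anchor**.
-/

namespace Pool.Agent.GaussPoset.W7

set_option linter.unusedSectionVars false

open Polynomial Finset Fi Cl Dd Wd

universe u

variable {P : Type u} [Fintype P] [PartialOrder P] [DecidableEq P]
variable {r n0 : ℕ} {N : Tops P → Finset P} {b : Tops P → ℕ} {θ : Tops P → P → ℕ}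

/-- the window 9 data of an anchor -/
theorem WL.f2 (W : WL r n0 N b θ) {c : P} {lo hi : ℕ → ℕ} {e : ℕ → ℕ → P} {A : Finset P}
    (L : LaD n0 N (θ (topOf c)) (topOf c) lo hi e A) (hcA : c ∈ A)
    (hmk : Sg.Mk e c 805306368) : F2D (topOf c : P) A c (Dn n0 N c) := by
  have hld := ld_of_mk L.word L.comp W.gt (topOf c).2 hmk
  rcases WL.anc_pat W L hcA hmk with J | ⟨hn, c', J⟩
  · obtain ⟨h1, -⟩ := J.cls L.word L.comp W.gt (topOf c).2
    refine ⟨fun U g1 g2 g3 => (h1 U g1 g2 g3).1, fun U g1 g2 g3 g4 => (h1 U g1 g2 g3).2 ?_, hld⟩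
    obtain ⟨d, hd, hdU⟩ := g4
    have h3 : d ∈ N (topOf c) ∧ lev d = 15 ∧ d ≠ c := by
      unfold Dn at hd
      split_ifs at hd
      · exact mem_filter.mp hd
      · exact absurd hd (notMem_empty _)
    refine ⟨d, ?_, h3.2.2, hdU⟩
    rw [L.nat, mem_union] at h3
    rcases h3.1 with h4 | h4
    · have := (mem_lowPart.mp h4).2
      omega
    · exact h4
  · refine ⟨fun U g1 g2 g3 => ?_, fun U g1 g2 g3 g4 => ?_, hld⟩
    · rcases J with J | J
      · exact J.cls L.word L.comp W.gt (topOf c).2 U g1 g2 (Or.inl g3)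
      · exact J.cls L.word L.comp W.gt (topOf c).2 U g1 g2 (Or.inr g3)
    · obtain ⟨d, hd, -⟩ := g4
      unfold Dn at hd
      rw [if_neg (by omega)] at hd
      exact absurd hd (notMem_empty _)

/-- **The component of an anchor.** -/
theorem WL.sp (W : WL r n0 N b θ) {c : P} (hc : Ank n0 N θ c) :
    Sp 7 n0 (r2 (2 * 7) N) (th2 N θ) (topOf c) c (Dn n0 N c) := by
  obtain ⟨lo, hi, e, A, L, hcA, hmk⟩ := hc
  exact WL.sp_of W L hcA hmk (WL.f2 W L hcA hmk)

end Pool.Agent.GaussPoset.W7
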