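import Pool.Agent.W_448s8f_h15.StE

/-!
The bounded sum of a component with an anchor, only the up-set of the anchor matters
(MP_448cb3_co, S8, `j = 14`, window 7).
-/

namespace Pool.Agent.GaussPoset.W7

set_option linter.unusedSectionVars false

open Polynomial Finset Fi

universe u

variable {Q : Type u} [Fintype Q] [PartialOrder Q] [DecidableEq Q]

/-- one more element costs at least `k` -/
lemma cw_ne {i k : ℕ} {v : Q} (hout : ∀ x, ¬ v ≤ x → i + k ≤ lev x) {L : Finset Q}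
    (hL : ∀ x y, x ≤ y → x ∈ L → y ∈ L) (hv : v ∈ L) (hne : ∃ x ∈ L, ¬ v ≤ x) :
    ct i k v + k ≤ cw {x // x ∈ L} i k := by
  classical
  obtain ⟨x0, hx0, hvx⟩ := hne
  have hn : x0 ∉ univ.filter (fun x => v ≤ x) := by
    rw [mem_filter]
    exact fun h => hvx h.2
  rw [cw_subtype hL, StA_ct_filter i k (U := univ.filter (fun x => v ≤ x)) (fun x => by simp)]
  have h1 : insert x0 (univ.filter (fun x => v ≤ x)) ⊆ L := by
    intro x hx
    rw [mem_insert] at hx
    rcases hx with rfl | hx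
    · exact hx0
    · exact hL v x (mem_filter.mp hx).2 hv
  refine le_trans ?_ (Finset.sum_le_sum_of_subset h1)
  rw [Finset.sum_insert hn, Nat.add_comm]
  refine Nat.add_le_add_right ?_ _
  have := hout x0 hvx
  exact le_min le_rfl (by omega)

/-- the order of the bounded sum below the first pole -/
theorem anc_dvd {i k p : ℕ} {v : Q} {β : Q → ℕ} (hpk : p ≤ k) (hβ : ∀ x, β x ≤ k)
    (hv : β v = k) (hout : ∀ x, ¬ v ≤ x → i + k ≤ lev x)
    (hcl : ∀ U : Finset Q, (∀ x, x ∈ U ↔ v ≤ x) → ∀ n < p,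
      (1 + X : ℤ[X]) ^ 2 ∣ Z {x // x ∈ U} (i + k) n) {n : ℕ} (hn : n < ct i k v + p) :
    (1 + X : ℤ[X]) ^ 2 ∣ ZB i ∅ 0 β n := by
  classical
  rw [StA_ZB_upL hβ (fun L => v ∈ L) (fun e F h => StA_anchor hv h)]
  refine Finset.dvd_sum fun L hL => Finset.dvd_sum fun ab hab => ?_
  rw [mem_upsF] at hL
  rw [HasAntidiagonal.mem_antidiagonal] at hab
  refine dvd_mul_of_dvd_left ?_ _
  rcases Nat.lt_or_ge ab.1 (cw {x // x ∈ L} i k) with h2 | h2
  · rw [ZB_const_zero h2]
    exact dvd_zero _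
  · have h1 := StA_ct_le_cw (i := i) (k := k) hL.1 hL.2
    obtain ⟨c, hc⟩ := Nat.exists_eq_add_of_le' h2
    rw [hc, ZB_const]
    by_cases hne : ∃ x ∈ L, ¬ v ≤ x
    · have h3 := cw_ne hout hL.1 hL.2 hne
      omega
    · push Not at hne
      exact hcl L (fun x => ⟨hne x, fun h => hL.1 v x h hL.2⟩) c (by omega)

/-- the first pole -/
theorem anc_lead {i k p : ℕ} {v : Q} {σ : ℤ} (hk : 1 ≤ k) (hpk : p ≤ k) (hiv : i < lev v)
    (hout : ∀ x, ¬ v ≤ x → i + k ≤ lev x) (h2 : 2 ≤ nab (i + k) v)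
    (hcl : ∀ U : Finset Q, (∀ x, x ∈ U ↔ v ≤ x) → ∀ n < p,
      (1 + X : ℤ[X]) ^ 2 ∣ Z {x // x ∈ U} (i + k) n)
    (hld : ∀ U : Finset Q, (∀ x, x ∈ U ↔ v ≤ x) →
      (1 + X : ℤ[X]) ^ 2 ∣ Z {x // x ∈ U} (i + k) p - C σ * (1 + X)) :
    (1 + X : ℤ[X]) ^ 2 ∣ ZB i ∅ 0 (sgz v k) (ct i k v + p) - C σ * (1 + X) := by
  classical
  set U : Finset Q := univ.filter (fun x => v ≤ x) with hU
  have hmU : ∀ x, x ∈ U ↔ v ≤ x := fun x => by rw [hU, mem_filter]; simp
  have hUup : ∀ x y, x ≤ y → x ∈ U → y ∈ U := fun x y hxy hx =>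
    (hmU y).mpr (((hmU x).mp hx).trans hxy)
  obtain ⟨-, -, h3⟩ := SC_core (i := i) (k := k) (B := p) (b := 2) (U := U) hk hUup
    (fun L => v ∈ L) (fun L hL hv x hx => hL v x ((hmU x).mp hx) hv)
    (fun x hx => hout x (fun h => hx ((hmU x).mpr h)))
    (fun _ n hn => hcl U hmU n hn)
    (fun L hL hUL hne n hn => by
      have h4 : (L \ U).Nonempty := by
        rw [Finset.sdiff_nonempty]
        intro h5
        exact hne (Finset.Subset.antisymm h5 hUL)
      have h5 := Finset.card_pos.mpr h4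
      have h6 : k * 1 ≤ k * (L \ U).card := Nat.mul_le_mul le_rfl h5
      obtain rfl : n = 0 := by omega
      rw [Z_zero]
      refine dvd_mul_of_dvd_right (pow_dvd_pow _ ?_) _
      refine h2.trans ?_
      have h7 : ∀ x : {x // x ∈ L}, lev x = lev (x : Q) :=
        lev_subtype (p := fun x => x ∈ L) hL
      unfold nab lv
      rw [Finset.filter_filter]
      refine Finset.card_le_card_of_injOn (fun x => if h : x ∈ L then (⟨x, h⟩ : {x // x ∈ L})
        else ⟨v, hUL ((hmU v).mpr le_rfl)⟩) ?_ ?_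
      · intro x hx
        rw [mem_coe, mem_filter] at hx
        have hxL : x ∈ L := hUL ((hmU x).mpr hx.2.2)
        simp only [dif_pos hxL]
        rw [mem_coe, mem_filter]
        exact ⟨mem_univ _, by rw [h7]; exact hx.2.1⟩
      · intro x hx y hy hxy
        rw [mem_coe, mem_filter] at hx hy
        have hxL : x ∈ L := hUL ((hmU x).mpr hx.2.2)
        have hyL : y ∈ L := hUL ((hmU y).mpr hy.2.2)
        simp only [dif_pos hxL, dif_pos hyL] at hxy
        exact congrArg Subtype.val hxy)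
  have h4 := h3 ((hmU v).mpr le_rfl)
  have h5 : ZB i ∅ 0 (sgz v k) (ct i k v + p) =
      SC (fun (e : Q → ℕ) F => Vd i e F ∧ v ∈ upL i k e F)
        (p + ∑ x ∈ U, min k (lev x - i)) := by
    rw [ZB_eq_SC, StA_ct_filter i k hmU, Nat.add_comm]
    refine SC_congr (fun e F => ?_) _
    rw [cst_single_iff hiv, mem_upL, rho_of_lt hiv]
    constructor
    · rintro ⟨h6, h7⟩
      refine ⟨h6, h7.imp id fun h => ?_⟩
      exact_mod_cast h
    · rintro ⟨h6, h7⟩
      refine ⟨h6, h7.imp id fun h => ?_⟩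
      exact_mod_cast h
  rw [h5]
  have h6 := dvd_add h4 (hld U hmU)
  rwa [show ∀ a b c : ℤ[X], a - b + (b - c) = a - c from fun a b c => by ring] at h6

end Pool.Agent.GaussPoset.W7
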