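import Pool.Agent.W_448w7_h22.XfB

/-!
The product of the component with the anchor and the rest (MP_448cb3_co, S8, `j = 14`,
window 7).
-/

namespace Pool.Agent.GaussPoset.W7

set_option linter.unusedSectionVars false

open Polynomial Finset Fi

universe u

variable {P : Type u} [Fintype P] [PartialOrder P] [DecidableEq P]
variable {ι : Type*} [DecidableEq ι]
variable {i k p K B0 : ℕ} {R : Finset P} {cp : P → ι} {θ : P → ℕ} {t : ι} {c : P} {σ : ℤ}

/-- the anchor -/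
def Anc.cT (A : Anc i k p K B0 R cp t c σ) : FT R cp t := ⟨⟨c, A.off⟩, A.ct⟩

/-- the up-set of the anchor -/
lemma Anc.up_iff (F : Frz i K R cp θ) (A : Anc i k p K B0 R cp t c σ)
    {L : Finset (FT R cp t)} (hL : ∀ x, x ∈ L ↔ A.cT ≤ x) :
    ∃ L' : Finset P, (∀ x, x ∈ L' ↔ c ≤ x) ∧
      ∀ i' n, Z {x // x ∈ L} i' n = Z {x // x ∈ L'} i' n := by
  obtain ⟨L', h1, h2, h3, h4⟩ := F.Z_T (L := L) (fun x y hxy hx =>
    (hL y).mpr (((hL x).mp hx).trans hxy))
  refine ⟨L', fun x => ?_, h4⟩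
  constructor
  · intro hx
    obtain ⟨h5, h6⟩ := h3 x hx
    have h7 := (h2 ⟨⟨x, h5⟩, h6⟩).mpr hx
    exact (hL _).mp h7
  · intro hx
    have h5 : x ∉ R := F.up _ _ hx A.off
    have h6 : cp x = t := (F.cp _ _ hx A.off).symm.trans A.ct
    exact (h2 ⟨⟨x, h5⟩, h6⟩).mp ((hL _).mpr hx)

lemma Anc.cls (F : Frz i K R cp θ) (A : Anc i k p K B0 R cp t c σ)
    (U : Finset (FT R cp t)) (hU : ∀ x, x ∈ U ↔ A.cT ≤ x) (n : ℕ) (hn : n < p) :
    (1 + X : ℤ[X]) ^ 2 ∣ Z {x // x ∈ U} (i + k) n := by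
  obtain ⟨L', h1, h2⟩ := A.up_iff F hU
  rw [h2]
  exact A.cl L' h1 n hn

lemma Anc.outT (F : Frz i K R cp θ) (A : Anc i k p K B0 R cp t c σ) (x : FT R cp t)
    (hx : ¬ A.cT ≤ x) : i + k ≤ lev x := by
  rw [F.levT]
  exact A.out x.1.1 x.1.2 x.2 (fun h => hx h)

/-- the component below the first pole -/
lemma Anc.T_dvd (F : Frz i K R cp θ) (A : Anc i k p K B0 R cp t c σ) (hpk : p ≤ k)
    {β : P → ℕ} (hc : β c = k) (hβ : ∀ x, x ∉ R → cp x = t → β x ≤ k) {a : ℕ}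
    (ha : a < GaussPoset.ct i k c + p) :
    (1 + X : ℤ[X]) ^ 2 ∣ ZB (P := FT R cp t) i ∅ 0 (fun x => β x.1.1) a := by
  refine anc_dvd (v := A.cT) (k := k) (p := p) hpk (fun x => hβ _ x.1.2 x.2) hc
    (fun x hx => A.outT F x hx) (A.cls F) ?_
  rw [F.ctT]
  exact ha

/-- the component at the first pole -/
lemma Anc.T_lead (F : Frz i K R cp θ) (A : Anc i k p K B0 R cp t c σ) (hk : 1 ≤ k)
    (hpk : p ≤ k) (hic : i < lev c) {β : P → ℕ} (hc : β c = k)
    (hβ : ∀ x, x ∉ R → cp x = t → x ≠ c → β x = 0) :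
    (1 + X : ℤ[X]) ^ 2 ∣ ZB (P := FT R cp t) i ∅ 0 (fun x => β x.1.1)
      (GaussPoset.ct i k c + p) - C σ * (1 + X) := by
  classical
  have e1 : (fun x : FT R cp t => β x.1.1) = sgz A.cT k := by
    funext x
    by_cases hx : x = A.cT
    · rw [hx, sgz_self]
      exact hc
    · rw [sgz_ne _ hx]
      refine hβ _ x.1.2 x.2 fun h => hx ?_
      exact Subtype.ext (Subtype.ext h)
  have e2 : GaussPoset.ct i k A.cT = GaussPoset.ct i k c := F.ctT A.cT i k
  rw [e1, ← e2]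
  refine anc_lead hk hpk (by rw [F.levT]; exact hic) (fun x hx => A.outT F x hx) ?_ (A.cls F) ?_
  · rw [F.nabT]
    exact A.nab.ge
  · intro U hU
    obtain ⟨L', h1, h2⟩ := A.up_iff F hU
    rw [h2]
    exact A.ld L' h1

/-- the order of the rest -/
theorem Anc.dvd_R (F : Frz i K R cp θ) (A : Anc i k p K B0 R cp t c σ)
    (hlev : ∀ x ∈ R, i < lev x) (β : P → ℕ)
    (hβ : ∀ x, x ∉ R → cp x ≠ t → β x ≤ θ x) {n : ℕ} (hn : n < K) :
    (1 + X : ℤ[X]) ^ ((lv P i).card - 2) ∣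
      ZB (P := FR R cp t) i ∅ 0 (fun x => β x.1.1) n := by
  classical
  have h2 := A.lv_R F hlev
  let β' : P → ℕ := fun x => if cp x = t then 0 else β x
  have e1 : (fun x : FT R cp t => β' x.1.1) = 0 := by
    funext x
    exact if_pos x.2
  have e2 : (fun x : FR R cp t => β' x.1.1) = (fun x : FR R cp t => β x.1.1) := by
    funext x
    exact if_neg x.2
  refine dvd_of_prod (A := fun a => if a < K then Z (FT R cp t) i a else 0)
    (B := fun a => ZB (P := FR R cp t) i ∅ 0 (fun x => β x.1.1) a) (α := 2)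
    (β := (lv P i).card - 2) (N := K) (u := below (FT R cp t) i) ?_ ?_ ?_ n hn
  · rw [if_pos (by omega), Z_zero, A.lv_T F]
  · intro a
    split_ifs with h
    · exact A.ord a h
    · exact dvd_zero _
  · intro n hn
    have h3 := F.bd β' (fun x hx => by
      show (if cp x = t then 0 else β x) ≤ _
      split_ifs with h
      · exact Nat.zero_le _
      · exact hβ x hx h) n hn
    rw [F.prod hlev t, e1, e2, show (lv P i).card = 2 + ((lv P i).card - 2) by omega] at h3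
    convert h3 using 2
    · rename_i ab hab
      rw [HasAntidiagonal.mem_antidiagonal] at hab
      rw [if_pos (by omega), Z_eq_ZB]

/-- the data of the rest: no energy below `E`, and the value at `E` -/
structure RD (i k : ℕ) (R : Finset P) (cp : P → ι) (t : ι) (c z0 : P) (E s d : ℕ) : Prop where
  zero : ∀ β : P → ℕ, (∀ x, z0 ⋖ x → x ≠ c → k ≤ β x) → ∀ b < E,
    ZB (P := FR R cp t) i ∅ 0 (fun x => β x.1.1) b = 0
  lead : ∀ β : P → ℕ, (∀ x, z0 ⋖ x → x ≠ c → β x = k) →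
    (∀ x, x ∉ R → cp x ≠ t → ¬ z0 ⋖ x → β x = 0) →
    ZB (P := FR R cp t) i ∅ 0 (fun x => β x.1.1) E = X ^ s * (1 + X) ^ d

/-- the energies below the first pole -/
theorem Anc.main_lt (F : Frz i K R cp θ) (A : Anc i k p K B0 R cp t c σ)
    (hlev : ∀ x ∈ R, i < lev x) (hpk : p ≤ k) {z0 : P} {E s d : ℕ}
    (D : RD i k R cp t c z0 E s d) {β : P → ℕ} (hc : β c = k)
    (hβT : ∀ x, x ∉ R → cp x = t → β x ≤ k) (hβz : ∀ x, z0 ⋖ x → x ≠ c → k ≤ β x)
    (hβR : ∀ x, x ∉ R → cp x ≠ t → β x ≤ θ x) {n : ℕ}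
    (hn : n < GaussPoset.ct i k c + p + E) (hnK : n < K) :
    (1 + X : ℤ[X]) ^ (lv P i).card ∣ ZB i R 0 β n := by
  have h2 := A.lv_R F hlev
  rw [F.prod hlev t]
  refine Finset.dvd_sum fun ab hab => ?_
  rw [HasAntidiagonal.mem_antidiagonal] at hab
  rcases Nat.lt_or_ge ab.2 E with h | h
  · rw [D.zero β hβz _ h, mul_zero]
    exact dvd_zero _
  · rw [show (lv P i).card = 2 + ((lv P i).card - 2) by omega, pow_add]
    exact mul_dvd_mul (A.T_dvd F hpk hc hβT (by omega)) (A.dvd_R F hlev β hβR (by omega))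

/-- the first pole -/
theorem Anc.main_eq (F : Frz i K R cp θ) (A : Anc i k p K B0 R cp t c σ)
    (hlev : ∀ x ∈ R, i < lev x) (hk : 1 ≤ k) (hpk : p ≤ k) (hic : i < lev c) {z0 : P}
    {E s d : ℕ} (D : RD i k R cp t c z0 E s d) {β : P → ℕ} (hc : β c = k)
    (hβT : ∀ x, x ∉ R → cp x = t → x ≠ c → β x = 0) (hβz : ∀ x, z0 ⋖ x → x ≠ c → β x = k)
    (hβ0 : ∀ x, x ∉ R → cp x ≠ t → ¬ z0 ⋖ x → β x = 0)
    (hβR : ∀ x, x ∉ R → cp x ≠ t → β x ≤ θ x) (hnK : GaussPoset.ct i k c + p + E < K) :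
    (1 + X : ℤ[X]) ^ (lv P i).card ∣
      ZB i R 0 β (GaussPoset.ct i k c + p + E) - C σ * X ^ s * (1 + X) ^ (d + 1) := by
  classical
  have h2 := A.lv_R F hlev
  have hTk : ∀ x, x ∉ R → cp x = t → β x ≤ k := by
    intro x hx ht
    by_cases h : x = c
    · rw [h, hc]
    · rw [hβT x hx ht h]
      exact Nat.zero_le _
  have hzk : ∀ x, z0 ⋖ x → x ≠ c → k ≤ β x := fun x h1 h2 => (hβz x h1 h2).ge
  have hmem : ((GaussPoset.ct i k c + p, E) : ℕ × ℕ) ∈
      antidiagonal (GaussPoset.ct i k c + p + E) := by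
    rw [HasAntidiagonal.mem_antidiagonal]
  have hd := A.dvd_R F hlev β hβR (n := E) (by omega)
  rw [D.lead β hβz hβ0] at hd
  rw [F.prod hlev t, ← Finset.add_sum_erase _ _ hmem]
  simp only
  rw [D.lead β hβz hβ0]
  have h3 : (1 + X : ℤ[X]) ^ (lv P i).card ∣
      ∑ ab ∈ (antidiagonal (GaussPoset.ct i k c + p + E)).erase (GaussPoset.ct i k c + p, E),
      ZB (P := FT R cp t) i ∅ 0 (fun x => β x.1.1) ab.1 *
        ZB (P := FR R cp t) i ∅ 0 (fun x => β x.1.1) ab.2 := by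
    refine Finset.dvd_sum fun ab hab => ?_
    rw [mem_erase, HasAntidiagonal.mem_antidiagonal] at hab
    obtain ⟨hne, hab⟩ := hab
    rcases Nat.lt_or_ge ab.2 E with h | h
    · rw [D.zero β hzk _ h, mul_zero]
      exact dvd_zero _
    · rcases Nat.lt_or_ge ab.1 (GaussPoset.ct i k c + p) with h4 | h4
      · rw [show (lv P i).card = 2 + ((lv P i).card - 2) by omega, pow_add]
        exact mul_dvd_mul (A.T_dvd F hpk hc hTk h4) (A.dvd_R F hlev β hβR (by omega))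
      · exfalso
        exact hne (Prod.ext (by simp only; omega) (by simp only; omega))
  obtain ⟨q1, hq1⟩ := A.T_lead F hk hpk hic hc hβT
  obtain ⟨q2, hq2⟩ := h3
  obtain ⟨q3, hq3⟩ := hd
  rw [hq2]
  have e1 : ZB (P := FT R cp t) i ∅ 0 (fun x => β x.1.1) (GaussPoset.ct i k c + p) =
      (1 + X) ^ 2 * q1 + C σ * (1 + X) := by
    rw [← hq1]
    ring
  rw [e1]
  obtain ⟨m, hm⟩ : ∃ m, (lv P i).card = m + 2 := ⟨(lv P i).card - 2, by omega⟩
  rw [hm] at hq3 ⊢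
  rw [show m + 2 - 2 = m by omega] at hq3
  refine ⟨q1 * q3 + q2, ?_⟩
  have e2 : (C σ : ℤ[X]) * X ^ s * (1 + X) ^ (d + 1) = C σ * (1 + X) * (X ^ s * (1 + X) ^ d) := by
    ring
  rw [e2, hq3]
  ring

end Pool.Agent.GaussPoset.W7
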