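import Pool.Agent.W_448w7_h22.XfC

/-!
The families of boundary elements below an anchor: the labels (MP_448cb3_co, S8, `j = 14`,
window 7).
-/

namespace Pool.Agent.GaussPoset.W7

set_option linter.unusedSectionVars false

open Polynomial Finset Fi

universe u

variable {P : Type u} [Fintype P] [PartialOrder P] [DecidableEq P]
variable {ι : Type*} [DecidableEq ι]
variable {i k p K B0 : ℕ} {R : Finset P} {cp : P → ι} {θ h : P → ℕ} {t : ι} {c : P} {σ : ℤ}

/-- a chain above an element -/
lemma card_chain (y : P) (a : ℕ) {S : Finset P} (hS : ∀ w, w ∈ S ↔ y ≤ w ∧ a < lev w) :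
    lev y - a ≤ S.card := by
  classical
  have h1 : Finset.Ioc a (lev y) ⊆ S.image (fun w => lev w) := by
    intro l hl
    rw [Finset.mem_Ioc] at hl
    obtain ⟨w, hw, hwl⟩ := exists_above' (x := y) (j := l) (by omega)
    rw [mem_image]
    exact ⟨w, (hS w).mpr ⟨hw, by omega⟩, hwl⟩
  have h2 := (Finset.card_le_card h1).trans Finset.card_image_le
  rwa [Nat.card_Ioc] at h2

/-- a family of boundary elements below the anchor -/
structure FamD (i k p : ℕ) (R : Finset P) (cp : P → ι) (θ h : P → ℕ) (t : ι) (c z0 : P)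
    (A0 : Finset P) (E : ℕ) : Prop where
  sub : A0 ⊆ bdR R
  up : ∀ z ∈ A0, ∀ w, z0 < w ↔ z < w
  zc : z0 ⋖ c
  cov : ∀ x, z0 ⋖ x → x ≠ c → x ∉ R ∧ cp x ≠ t ∧ k ≤ θ x
  lab : ∀ z ∈ A0, h z = k
  cst : ∀ z ∈ A0, ct i k c + E + k ≤ cst i h z
  hh : ∀ y ∈ bdR R, ∀ x, x ∉ R → y ⋖ x → h y ≤ θ x + 1
  lev : ∀ x ∈ R, i + k + p < lev x

variable {z0 : P} {A0 : Finset P} {E s d : ℕ}

lemma ez_le_lab (M : FamD i k p R cp θ h t c z0 A0 E) {z : P} (hz : z ∈ A0) (y : P) :
    ez i h z y ≤ k := by
  unfold ez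
  split_ifs
  · rw [M.lab z hz]
    exact min_le_left _ _
  · exact Nat.zero_le _

/-- an element of the frozen set in the filter costs too much -/
lemma FamD.no_filter (M : FamD i k p R cp θ h t c z0 A0 E) {e : P → ℕ} {F : Finset P}
    (hV : Vd i e F) {n : ℕ} (hs : ∑ x, e x = n) (hn : n ≤ ct i k c + E + k + p) {z : P}
    (hz : z ∈ A0) (hd : Dgz h e F z) {x : P} (hx : x ∈ R) : x ∉ F := by
  classical
  intro hxF
  have hlx := M.lev x hx
  have hlz := M.lev z (mem_filter.mp (M.sub hz)).1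
  have f1 := sub_le_of_mem hV hxF
  have hc := ez_le hV (by omega) hd
  have h1 : ∑ y, (ez i h z y + if y = x then p + 1 else 0) ≤ ∑ y, e y := by
    refine Finset.sum_le_sum fun y _ => ?_
    have hcy := hc y
    have hby := ez_le_lab M hz y
    by_cases g1 : y = x
    · subst g1
      rw [if_pos rfl]
      omega
    · rw [if_neg g1, Nat.add_zero]
      exact hcy
  rw [Finset.sum_add_distrib, Finset.sum_ite_eq' univ x, if_pos (mem_univ _)] at h1
  have h2 := M.cst z hz
  unfold GaussPoset.cst at h2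
  omega

/-- the labels on the frozen set are at most `k` -/
lemma FamD.label_le (M : FamD i k p R cp θ h t c z0 A0 E) {e : P → ℕ} {F : Finset P}
    (hV : Vd i e F) {n : ℕ} (hs : ∑ x, e x = n) (hn : n ≤ ct i k c + E + k + p) {z : P}
    (hz : z ∈ A0) (hd : Dgz h e F z) {y : P} (hy : y ∈ R) : e y ≤ k := by
  classical
  by_contra hcon
  have hly := M.lev y hy
  have hlz := M.lev z (mem_filter.mp (M.sub hz)).1
  have hc := ez_le hV (by omega) hd
  have hc2 := ez_le (h := fun _ => k + 1) (z := y) hV (by omega) (Or.inr (by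
    show k + 1 ≤ e y
    omega))
  set S : Finset P := univ.filter (fun w : P => y ≤ w ∧ i + k < GaussPoset.lev w) with hS
  have hcS := card_chain y (i + k) (S := S) (fun w => by rw [hS, mem_filter]; simp)
  have h1 : ∑ w, (ez i h z w + if w ∈ S then 1 else 0) ≤ ∑ w, e w := by
    refine Finset.sum_le_sum fun w _ => ?_
    have hcy := hc w
    have hby := ez_le_lab M hz w
    by_cases g1 : w ∈ S
    · rw [if_pos g1]
      rw [hS, mem_filter] at g1
      have h3 := hc2 w
      unfold ez at h3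
      rw [if_pos g1.2.1] at h3
      have h4 : k + 1 ≤ GaussPoset.lev w - i := by omega
      rw [min_eq_left h4] at h3
      omega
    · rw [if_neg g1, Nat.add_zero]
      exact hcy
  rw [Finset.sum_add_distrib, Finset.sum_ite_mem, Finset.univ_inter, Finset.sum_const,
    smul_eq_mul, mul_one] at h1
  have h2 := M.cst z hz
  unfold GaussPoset.cst at h2
  omega

/-- the labels of configurations of small energy -/
theorem FamD.good (M : FamD i k p R cp θ h t c z0 A0 E) (hct : cp c = t) {g e : P → ℕ} {F : Finset P}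
    (hC : Cst i R g 0 e F) {n : ℕ} (hs : ∑ x, e x = n) (hn : n ≤ ct i k c + E + k + p)
    {z : P} (hz : z ∈ A0) (hg : k ≤ g z)
    (hU : ∀ y ∈ bdR R, y ∉ A0 → n < Uu i h z y) :
    (∀ y ∈ R, g y ≤ k) ∧
    ∀ y ∈ R, ∀ x, x ∉ R → y ⋖ x → cp x ≠ t → g y ≤ θ x := by
  classical
  obtain ⟨hV, hR, -⟩ := hC
  have hzR : z ∈ R := (mem_filter.mp (M.sub hz)).1
  have hlz := M.lev z hzR
  have hd : Dgz h e F z := Or.inr (by
    rw [M.lab z hz, (hR z hzR).2]
    exact hg)
  have G1 : ∀ y ∈ R, g y ≤ k := by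
    intro y hy
    rw [← (hR y hy).2]
    exact M.label_le hV hs hn hz hd hy
  refine ⟨G1, ?_⟩
  intro y hy x hx hyx hxt
  have hyb : y ∈ bdR R := mem_filter.mpr ⟨hy, x, hx, hyx⟩
  by_cases hyA : y ∈ A0
  · have h1 : z0 ⋖ x := (cov_of_up (M.up y hyA)).mpr hyx
    have h2 : x ≠ c := by
      rintro rfl
      exact hxt hct
    exact (G1 y hy).trans (M.cov x h1 h2).2.2
  · have h1 := hU y hyb hyA
    have h3 : g y < h y := by
      by_contra hcon
      have h4 : h y ≤ e y := by
        rw [(hR y hy).2]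
        exact not_lt.mp hcon
      have h5 := ez_le (h := h) hV (by
        have := M.lev y hy
        omega) (Or.inr h4)
      have h6 := ez_le (h := h) (z := z) hV (by omega) hd
      have h7 : Uu i h z y ≤ ∑ x, e x :=
        Finset.sum_le_sum fun w _ => max_le (h6 w) (h5 w)
      omega
    have h4 := M.hh y hyb x hx hyx
    omega

end Pool.Agent.GaussPoset.W7
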