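import Pool.Agent.W_448w7_h22.XfD

/-!
The families of boundary elements below an anchor: the first pole (MP_448cb3_co, S8, `j = 14`,
window 7).
-/

namespace Pool.Agent.GaussPoset.W7

set_option linter.unusedSectionVars false

open Polynomial Finset Fi

universe u

variable {P : Type u} [Fintype P] [PartialOrder P] [DecidableEq P]
variable {ι : Type*} [DecidableEq ι]
variable {i k p K B0 : ℕ} {R : Finset P} {cp : P → ι} {θ h : P → ℕ} {t : ι} {c : P} {σ : ℤ}
variable {z0 : P} {A0 : Finset P} {E s d : ℕ}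

lemma FamD.levR (M : FamD i k p R cp θ h t c z0 A0 E) : ∀ x ∈ R, i < GaussPoset.lev x :=
    fun x hx => by
  have := M.lev x hx
  omega

lemma FamD.covz (M : FamD i k p R cp θ h t c z0 A0 E) {z : P} (hz : z ∈ A0) {x : P} :
    z0 ⋖ x ↔ z ⋖ x := cov_of_up (M.up z hz)

lemma FamD.mem (M : FamD i k p R cp θ h t c z0 A0 E) {z : P} (hz : z ∈ A0) : z ∈ R := by
  classical
  exact (mem_filter.mp (M.sub hz)).1

/-- the contribution of a label -/
theorem FamD.term_dvd (M : FamD i k p R cp θ h t c z0 A0 E) (F : Frz i K R cp θ)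
    (A : Anc i k p K B0 R cp t c σ) (hpk : p ≤ k) (D : RD i k R cp t c z0 E s d)
    {g : P → ℕ} (hg0 : ∀ x, x ∉ R → g x = 0) {z : P} (hz : z ∈ A0)
    (hg : k ≤ g z) {n : ℕ} (hn : n ≤ ct i k c + E + k + p) (hnK : n < K)
    (hU : ∀ y ∈ bdR R, y ∉ A0 → n < Uu i h z y)
    (hne : ¬ (n = ct i k c + E + k + p ∧ g = sgz z k)) :
    (1 + X : ℤ[X]) ^ (lv P i).card ∣ ZB i R g 0 n := by
  classical
  have hzR := M.mem hz
  by_cases hex : ∃ e F, Cst i R g 0 e F ∧ ∑ x, e x = n
  · obtain ⟨e, F', hC, hs⟩ := hex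
    obtain ⟨G1, G2⟩ := M.good A.ct hC hs hn hz hg hU
    by_cases hc : ∀ x ∈ R, ∀ y ∈ R, x ≤ y → g x ≤ g y
    · have hsum : g z ≤ ∑ x, g x := Finset.single_le_sum (fun _ _ => Nat.zero_le _) (mem_univ z)
      have hle : ∑ x, g x ≤ n := by
        rw [← hs]
        refine Finset.sum_le_sum fun x _ => ?_
        by_cases hx : x ∈ R
        · exact (hC.2.1 x hx).2.ge
        · rw [hg0 x hx]
          exact Nat.zero_le _
      obtain ⟨n', hn'⟩ : ∃ n', n = n' + ∑ x, g x := ⟨n - ∑ x, g x, by omega⟩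
      rw [hn', ZB_shift 0 F.low M.levR hg0 hc]
      refine A.main_lt F M.levR hpk D (le_antisymm (bg_le (Nat.zero_le _) (fun y hy _ => G1 y hy))
        (hg.trans (le_bg' 0 hzR ((M.covz hz).mp M.zc))))
        (fun x _ _ => bg_le (Nat.zero_le _) fun y hy _ => G1 y hy)
        (fun x hzx _ => hg.trans (le_bg' 0 hzR ((M.covz hz).mp hzx)))
        (fun x hx ht => bg_le (Nat.zero_le _) fun y hy hyx => G2 y hy x hx hyx ht) ?_ (by omega)
      by_contra hcon
      refine hne ⟨by omega, ?_⟩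
      have h5 : ∑ x, g x = k := by omega
      have h6 : g z = k := by omega
      funext x
      by_cases hx : x = z
      · rw [hx, sgz_self, h6]
      · rw [sgz_ne _ hx]
        have h7 : g z + g x ≤ ∑ x, g x := by
          rw [← Finset.add_sum_erase univ g (mem_univ z)]
          exact Nat.add_le_add_left (Finset.single_le_sum (f := g) (fun _ _ => Nat.zero_le _)
            (mem_erase.mpr ⟨hx, mem_univ x⟩)) _
        omega
    · rw [ZB_zero_of_not_compat 0 M.levR hc]
      exact dvd_zero _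
  · have : ZB i R g 0 n = 0 := by
      unfold ZB
      refine Finset.sum_eq_zero fun F _ => ?_
      rw [Finset.filter_eq_empty_iff.mpr, Finset.sum_empty]
      intro e he hC
      rw [mem_piAntidiag] at he
      exact hex ⟨e, F, hC, he.1⟩
    rw [this]
    exact dvd_zero _

/-- the contribution of the lowest label -/
theorem FamD.term_lead (M : FamD i k p R cp θ h t c z0 A0 E) (F : Frz i K R cp θ)
    (A : Anc i k p K B0 R cp t c σ) (hk : 1 ≤ k) (hpk : p ≤ k)
    (D : RD i k R cp t c z0 E s d) {z : P} (hz : z ∈ A0)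
    (hmin : ∀ x ∈ R, z ≤ x → x = z)
    (hnK : ct i k c + E + k + p < K) :
    (1 + X : ℤ[X]) ^ (lv P i).card ∣
      ZB i R (sgz z k) 0 (ct i k c + E + k + p) - C σ * X ^ s * (1 + X) ^ (d + 1) := by
  classical
  have hzR := M.mem hz
  have hsum : ∑ x, sgz z k x = k := by
    unfold sgz
    rw [Finset.sum_ite_eq' univ z, if_pos (mem_univ z)]
  have hle : ∀ y, sgz z k y ≤ k := by
    intro y
    unfold sgz
    split_ifs
    · exact le_rfl
    · exact Nat.zero_le _
  have hg0 : ∀ x, x ∉ R → sgz z k x = 0 := fun x hx => sgz_ne _ (fun h => hx (h ▸ hzR))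
  have hc : ∀ x ∈ R, ∀ y ∈ R, x ≤ y → sgz z k x ≤ sgz z k y := by
    intro x hx y hy hxy
    by_cases h1 : x = z
    · subst h1
      rw [hmin y hy hxy]
    · rw [sgz_ne _ h1]
      exact Nat.zero_le _
  rw [show ct i k c + E + k + p = (ct i k c + p + E) + ∑ x, sgz z k x by
    rw [hsum]
    omega, ZB_shift 0 F.low M.levR hg0 hc]
  have hzero : ∀ x, ¬ z0 ⋖ x → bg R (sgz z k) 0 x = 0 := by
    intro x hx
    refine Nat.le_zero.mp (bg_le (Nat.zero_le _) fun y hy hyx => ?_)
    by_cases h1 : y = z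
    · subst h1
      exact absurd ((M.covz hz).mpr hyx) hx
    · rw [sgz_ne _ h1]
  have hval : ∀ x, z0 ⋖ x → bg R (sgz z k) 0 x = k := by
    intro x hx
    refine le_antisymm (bg_le (Nat.zero_le _) fun y _ _ => hle y) ?_
    have := le_bg' (g := sgz z k) 0 hzR ((M.covz hz).mp hx)
    rwa [sgz_self] at this
  have hcR := A.off
  have hlc : i < GaussPoset.lev c := by
    have h1 := F.gr.lev_covBy ((M.covz hz).mp M.zc)
    have h2 := M.lev z hzR
    omega
  refine A.main_eq F M.levR hk hpk hlc D (hval c M.zc) ?_ (fun x hx _ => hval x hx)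
    (fun x _ _ hx => hzero x hx) ?_ (by omega)
  · intro x hx ht hxc
    refine hzero x fun hzx => ?_
    exact (M.cov x hzx hxc).2.1 ht
  · intro x hx ht
    by_cases hzx : z0 ⋖ x
    · rw [hval x hzx]
      exact (M.cov x hzx (by
        rintro rfl
        exact ht A.ct)).2.2
    · rw [hzero x hzx]
      exact Nat.zero_le _

/-- the covers of a member of the family are off the frozen set -/
lemma FamD.hmin (M : FamD i k p R cp θ h t c z0 A0 E) (F : Frz i K R cp θ) (hcR : c ∉ R)
    {z : P} (hz : z ∈ A0) : ∀ x ∈ R, z ≤ x → x = z := by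
  intro x hx hzx
  by_contra hne
  have h1 : z < x := lt_of_le_of_ne hzx (Ne.symm hne)
  obtain ⟨w, hw, hwx⟩ := Hul.exists_cov h1
  have h2 : z0 ⋖ w := (M.covz hz).mpr hw
  have h3 : w ∉ R := by
    by_cases h4 : w = c
    · rw [h4]
      exact hcR
    · exact (M.cov w h2 h4).1
  exact F.up w x hwx h3 hx

/-- **The families below the anchor**: the first pole is at `ct i k c + E + k + p`. -/
theorem FamD.family (M : FamD i k p R cp θ h t c z0 A0 E) (F : Frz i K R cp θ)
    (A : Anc i k p K B0 R cp t c σ) (hk : 1 ≤ k) (hpk : p ≤ k)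
    (D : RD i k R cp t c z0 E s d) {N1 : ℕ} (hN1 : N1 ≤ K)
    (hU : ∀ z ∈ A0, ∀ y ∈ bdR R, y ∉ A0 → ∀ n, n ≤ ct i k c + E + k + p → n < N1 →
      n < Uu i h z y) :
    (∀ n < ct i k c + E + k + p, n < N1 → (1 + X : ℤ[X]) ^ (lv P i).card ∣ ZF i h A0 n) ∧
    (ct i k c + E + k + p < N1 → (1 + X : ℤ[X]) ^ (lv P i).card ∣
      ZF i h A0 (ct i k c + E + k + p) - ∑ _z ∈ A0, C σ * X ^ s * (1 + X) ^ (d + 1)) := by
  classical
  have hAR : A0 ⊆ R := fun z hz => M.mem hz
  set E1 := ct i k c + E + k + p with hE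
  have hlab : ∀ n, n ≤ E1 → ZF i h A0 n =
      ∑ g ∈ Fintype.piFinset (fun _ : P => range (n + 1)),
        if (∀ x, x ∉ R → g x = 0) ∧ (∃ z ∈ A0, h z ≤ g z) then ZB i R g 0 n else 0 := by
    intro n hn
    refine ZF_labels hAR ?_
    rintro e F hV hs ⟨z, hz, hd⟩ x hx
    exact M.no_filter hV hs hn hz hd hx
  constructor
  · intro n hn hn1
    rw [hlab n hn.le]
    refine Finset.dvd_sum fun g _ => ?_
    split_ifs with hh
    · obtain ⟨h1, z, hz, h3⟩ := hh
      rw [M.lab z hz] at h3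
      exact M.term_dvd F A hpk D h1 hz h3 hn.le (by omega)
        (fun y hy hyA => hU z hz y hy hyA n hn.le hn1) (fun h4 => by omega)
    · exact dvd_zero _
  · intro hN
    rw [hlab _ le_rfl]
    set I := A0.image (fun z => sgz z k) with hI
    have hsub : I ⊆ Fintype.piFinset (fun _ : P => range (E1 + 1)) := by
      intro g hg
      obtain ⟨z, hz, rfl⟩ := mem_image.mp hg
      rw [Fintype.mem_piFinset]
      intro x
      rw [mem_range]
      unfold sgz
      split_ifs <;> omega
    have hinj : ∀ z ∈ A0, ∀ z' ∈ A0, sgz z k = sgz z' k → z = z' := by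
      intro z _ z' _ h
      by_contra hzz
      have h1 := congrFun h z
      rw [sgz_self, sgz_ne _ hzz] at h1
      omega
    rw [← Finset.sum_sdiff hsub, hI, Finset.sum_image hinj, ← hI, add_sub_assoc,
      ← Finset.sum_sub_distrib]
    refine dvd_add (Finset.dvd_sum fun g hg => ?_) (Finset.dvd_sum fun z hz => ?_)
    · split_ifs with hh
      · obtain ⟨h1, z, hz, h3⟩ := hh
        rw [M.lab z hz] at h3
        refine M.term_dvd F A hpk D h1 hz h3 le_rfl (by omega)
          (fun y hy hyA => hU z hz y hy hyA E1 le_rfl hN) (fun h4 => ?_)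
        refine (mem_sdiff.mp hg).2 ?_
        rw [hI, h4.2]
        exact mem_image_of_mem _ hz
      · exact dvd_zero _
    · rw [if_pos]
      · exact M.term_lead F A hk hpk D hz (M.hmin F A.off hz) (by omega)
      · refine ⟨fun x hx => sgz_ne _ (fun h => hx (h ▸ hAR hz)), z, hz, ?_⟩
        rw [sgz_self, M.lab z hz]

end Pool.Agent.GaussPoset.W7
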