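import Pool.Agent.W_448w7_h22.XfE

/-!
The two kinds of families below an anchor: pendants and joins with another component
(MP_448cb3_co, S8, `j = 14`, window 7).
-/

namespace Pool.Agent.GaussPoset.W7

set_option linter.unusedSectionVars false

open Polynomial Finset Fi

universe u

variable {P : Type u} [Fintype P] [PartialOrder P] [DecidableEq P]
variable {ι : Type*} [DecidableEq ι]
variable {i k p K B0 : ℕ} {R : Finset P} {cp : P → ι} {θ : P → ℕ} {t : ι} {c v : P} {σ : ℤ}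
variable {z0 : P} {A0 : Finset P}

/-- the label of a family with the same covers -/
lemma hcan_same {z z0 : P} (hz : z ∈ bdR R) (hup : ∀ w, z0 < w ↔ z < w)
    (hk : ∃ x, x ∉ R ∧ z0 ⋖ x ∧ θ x + 1 = k) (hle : ∀ x, x ∉ R → z0 ⋖ x → k ≤ θ x + 1) :
    hcan R θ z = k := by
  obtain ⟨x, hx, hzx, hxk⟩ := hk
  refine le_antisymm ?_ ?_
  · rw [← hxk]
    exact hcan_le hx ((cov_of_up hup).mp hzx)
  · obtain ⟨y, hy, hzy, h1⟩ := hcan_spec (θ := θ) hz
    rw [h1]
    exact hle y hy ((cov_of_up hup).mpr hzy)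

/-- the cost of a pendant -/
lemma cst_pend {h : P → ℕ} {z : P} (hz : h z = k) (hzc : z < c) (hl : i + k ≤ lev z) :
    ct i k c + k ≤ cst i h z := by
  classical
  have h1 : ct i k c + k = ∑ x : P, ((if c ≤ x then min k (lev x - i) else 0) +
      (if x = z then k else 0)) := by
    rw [Finset.sum_add_distrib, Finset.sum_ite_eq' univ z, if_pos (mem_univ z), ct_eq_sum]
  rw [h1]
  unfold cst
  refine Finset.sum_le_sum fun x _ => ?_
  unfold ez
  rw [hz]
  by_cases hx : x = z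
  · subst hx
    rw [if_neg (fun h => absurd (h.trans_lt hzc) (lt_irrefl _)), if_pos rfl, if_pos le_rfl,
      min_eq_left (by omega), Nat.zero_add]
  · rw [if_neg hx, Nat.add_zero]
    by_cases hcx : c ≤ x
    · rw [if_pos hcx, if_pos (hzc.le.trans hcx)]
    · rw [if_neg hcx]
      exact Nat.zero_le _

/-- the cost of a join -/
lemma cst_join {h : P → ℕ} {z : P} (hz : h z = k) (hzc : z < c) (hzv : z < v)
    (hdis : ∀ x, c ≤ x → v ≤ x → False) (hl : i + k ≤ lev z) :
    ct i k c + ct i k v + k ≤ cst i h z := by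
  classical
  have h1 := two_anchor (m := i) (f := c) (v := v) (e := ez i h z)
    (c := ez i h z) (k1 := k) (k2 := k)
    (fun x hx => by
      unfold ez
      rw [if_pos (hzc.le.trans hx), hz])
    (fun x hx => by
      unfold ez
      rw [if_pos (hzv.le.trans hx), hz])
    hdis {z} (fun w hw => by
      rw [mem_singleton] at hw
      rw [hw]
      exact ⟨fun h => absurd (h.trans_lt hzc) (lt_irrefl _),
        fun h => absurd (h.trans_lt hzv) (lt_irrefl _)⟩) (fun _ _ => le_rfl)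
  rw [Finset.sum_singleton] at h1
  have h2 : ez i h z z = k := by
    unfold ez
    rw [if_pos le_rfl, hz]
    omega
  rw [h2] at h1
  exact h1

section Pendant

/-- a family of pendants below the anchor -/
structure PenD (i k p : ℕ) (R : Finset P) (θ : P → ℕ) (c z0 : P) (A0 : Finset P) : Prop where
  sub : A0 ⊆ bdR R
  up : ∀ z ∈ A0, ∀ w, z0 < w ↔ z < w
  zc : z0 ⋖ c
  only : ∀ x, z0 ⋖ x → x = c
  th : θ c + 1 = k
  off : c ∉ R
  lev : ∀ x ∈ R, i + k + p < lev x

theorem PenD.famD (H : PenD i k p R θ c z0 A0) (cp : P → ι) (t : ι) :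
    FamD i k p R cp θ (hcan R θ) t c z0 A0 0 := by
  classical
  have hlab : ∀ z ∈ A0, hcan R θ z = k := fun z hz =>
    hcan_same (H.sub hz) (H.up z hz) ⟨c, H.off, H.zc, H.th⟩ (fun x _ hx => by
      rw [H.only x hx, H.th])
  refine ⟨H.sub, H.up, H.zc, fun x hx hxc => absurd (H.only x hx) hxc, hlab, fun z hz => ?_,
    fun y _ x hx hyx => hcan_le hx hyx, H.lev⟩
  rw [Nat.add_zero]
  have hl := H.lev z (mem_filter.mp (H.sub hz)).1
  exact cst_pend (hlab z hz) ((H.up z hz c).mp H.zc.1) (by omega)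

theorem PenD.rd (H : PenD i k p R θ c z0 A0) (F : Frz i K R cp θ)
    (A : Anc i k p K B0 R cp t c σ) (hi : ∀ x ∈ R, i < GaussPoset.lev x) :
    RD i k R cp t c z0 0 (below (FR R cp t) i) ((lv P i).card - 2) where
  zero := fun _ _ b hb => absurd hb (Nat.not_lt_zero b)
  lead := by
    intro β _ h2
    have e1 : (fun x : FR R cp t => β x.1.1) = 0 := by
      funext x
      refine h2 _ x.1.2 x.2 fun hx => ?_
      exact x.2 (by rw [H.only _ hx]; exact A.ct)
    have h3 := A.lv_R F hi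
    rw [e1, ← Z_eq_ZB, Z_zero, show (lv P i).card - 2 = (lv (FR R cp t) i).card by omega]

/-- **Pendants below the anchor**: the first pole is at `ct i k c + k + p`. -/
theorem PenD.family (H : PenD i k p R θ c z0 A0) (F : Frz i K R cp θ)
    (A : Anc i k p K B0 R cp t c σ) (hk : 1 ≤ k) (hpk : p ≤ k) {N1 : ℕ} (hN1 : N1 ≤ K)
    (hU : ∀ z ∈ A0, ∀ y ∈ bdR R, y ∉ A0 → ∀ n, n ≤ ct i k c + k + p → n < N1 →
      n < Uu i (hcan R θ) z y) :
    (∀ n < ct i k c + k + p, n < N1 →
      (1 + X : ℤ[X]) ^ (lv P i).card ∣ ZF i (hcan R θ) A0 n) ∧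
    (ct i k c + k + p < N1 → (1 + X : ℤ[X]) ^ (lv P i).card ∣
      ZF i (hcan R θ) A0 (ct i k c + k + p) - ∑ _z ∈ A0, C σ *
        X ^ (below (FR R cp t) i) * (1 + X) ^ ((lv P i).card - 1)) := by
  have hi : ∀ x ∈ R, i < GaussPoset.lev x := fun x hx => by
    have := H.lev x hx
    omega
  have h1 := (H.famD cp t).family F A hk hpk (H.rd F A hi) hN1 (by
    rw [Nat.add_zero]
    exact hU)
  have h2 := A.lv_R F hi
  rw [Nat.add_zero, show (lv P i).card - 2 + 1 = (lv P i).card - 1 by omega] at h1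
  exact h1

end Pendant

section Join

/-- a family of joins of the anchor with an element of another component -/
structure JoiD (i k p : ℕ) (R : Finset P) (cp : P → ι) (θ : P → ℕ) (t : ι) (c v z0 : P)
    (A0 : Finset P) : Prop where
  sub : A0 ⊆ bdR R
  up : ∀ z ∈ A0, ∀ w, z0 < w ↔ z < w
  zc : z0 ⋖ c
  zv : z0 ⋖ v
  only : ∀ x, z0 ⋖ x → x = c ∨ x = v
  th : θ c + 1 = k
  off : c ∉ R
  cpc : cp c = t
  offv : v ∉ R
  ne : cp v ≠ t
  thv : k ≤ θ v
  lev : ∀ x ∈ R, i + k + p < lev x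

theorem JoiD.famD (H : JoiD i k p R cp θ t c v z0 A0) (F : Frz i K R cp θ) :
    FamD i k p R cp θ (hcan R θ) t c z0 A0 (ct i k v) := by
  classical
  have hlab : ∀ z ∈ A0, hcan R θ z = k := fun z hz =>
    hcan_same (H.sub hz) (H.up z hz) ⟨c, H.off, H.zc, H.th⟩ (fun x _ hx => by
      rcases H.only x hx with h | h
      · rw [h, H.th]
      · rw [h]
        have := H.thv
        omega)
  refine ⟨H.sub, H.up, H.zc, fun x hx hxc => ?_, hlab, fun z hz => ?_,
    fun y _ x hx hyx => hcan_le hx hyx, H.lev⟩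
  · rcases H.only x hx with h | h
    · exact absurd h hxc
    · rw [h]
      exact ⟨H.offv, H.ne, H.thv⟩
  · have hl := H.lev z (mem_filter.mp (H.sub hz)).1
    refine cst_join (hlab z hz) ((H.up z hz c).mp H.zc.1) ((H.up z hz v).mp H.zv.1)
      (fun x h1 h2 => H.ne ?_) (by omega)
    rw [F.cp v x h2 H.offv, ← F.cp c x h1 H.off, H.cpc]

theorem JoiD.rd (H : JoiD i k p R cp θ t c v z0 A0) (F : Frz i K R cp θ)
    (A : Anc i k p K B0 R cp t c σ) (hk : 1 ≤ k) (hi : ∀ x ∈ R, i < GaussPoset.lev x)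
    (hv : i + k ≤ GaussPoset.lev v) :
    RD i k R cp t c z0 (ct i k v) (below (FR R cp t) i + nst i (fun _ => k) v)
      ((lv P i).card - 2 + nab (i + k) v - nab i v) := by
  classical
  have e0 : GaussPoset.lev (⟨⟨v, H.offv⟩, H.ne⟩ : FR R cp t) = GaussPoset.lev v := F.levR _
  have hvc : v ≠ c := by
    rintro rfl
    exact H.ne A.ct
  constructor
  · intro β hβ b hb
    have h1 := hβ v H.zv hvc
    refine ZB_bound_zero (z := (⟨⟨v, H.offv⟩, H.ne⟩ : FR R cp t)) (by rw [e0]; omega) ?_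
    refine lt_of_lt_of_le hb ?_
    refine le_trans (ct_mono (i := i) (le_refl v) h1) ?_
    exact (F.ctR (⟨⟨v, H.offv⟩, H.ne⟩ : FR R cp t) i (β v)).ge
  · intro β h1 h2
    have e1 : (fun x : FR R cp t => β x.1.1) = sgz (⟨⟨v, H.offv⟩, H.ne⟩ : FR R cp t) k := by
      funext x
      by_cases hx : x = (⟨⟨v, H.offv⟩, H.ne⟩ : FR R cp t)
      · rw [hx, sgz_self]
        exact h1 v H.zv hvc
      · rw [sgz_ne _ hx]
        refine h2 _ x.1.2 x.2 fun hzx => hx ?_
        rcases H.only _ hzx with h | h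
        · exact absurd (by rw [h]; exact A.ct) x.2
        · exact Subtype.ext (Subtype.ext h)
    have hgr : GradedBelow (FR R cp t) := gbel_sub (F.upR t) (gbel_sub F.up F.gr)
    have h3 := ZD_lead (i := i) (k := k) (z := (⟨⟨v, H.offv⟩, H.ne⟩ : FR R cp t)) hgr hk
      (by rw [e0]; omega)
    have h4 : ct i k (⟨⟨v, H.offv⟩, H.ne⟩ : FR R cp t) = ct i k v := F.ctR _ i k
    rw [h4] at h3
    rw [e1]
    refine Eq.trans h3 ?_
    unfold Lt
    have n0 : nab i (⟨⟨v, H.offv⟩, H.ne⟩ : FR R cp t) = nab i v := F.nabR _ i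
    have n1 : nab (i + k) (⟨⟨v, H.offv⟩, H.ne⟩ : FR R cp t) = nab (i + k) v := F.nabR _ _
    have n2 : nst i (fun _ => k) (⟨⟨v, H.offv⟩, H.ne⟩ : FR R cp t) = nst i (fun _ => k) v :=
      F.nstR _ i k
    have h5 := A.lv_R F hi
    simp only
    rw [n0, n1, n2, show (lv P i).card - 2 = (lv (FR R cp t) i).card by omega]

/-- **Joins of the anchor with another component**: the first pole is at
`ct i k c + ct i k v + k + p`. -/
theorem JoiD.family (H : JoiD i k p R cp θ t c v z0 A0) (F : Frz i K R cp θ)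
    (A : Anc i k p K B0 R cp t c σ) (hk : 1 ≤ k) (hpk : p ≤ k)
    (hv : i + k ≤ GaussPoset.lev v) {N1 : ℕ} (hN1 : N1 ≤ K)
    (hU : ∀ z ∈ A0, ∀ y ∈ bdR R, y ∉ A0 → ∀ n, n ≤ ct i k c + ct i k v + k + p → n < N1 →
      n < Uu i (hcan R θ) z y) :
    (∀ n < ct i k c + ct i k v + k + p, n < N1 →
      (1 + X : ℤ[X]) ^ (lv P i).card ∣ ZF i (hcan R θ) A0 n) ∧
    (ct i k c + ct i k v + k + p < N1 → (1 + X : ℤ[X]) ^ (lv P i).card ∣
      ZF i (hcan R θ) A0 (ct i k c + ct i k v + k + p) - ∑ _z ∈ A0, C σ *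
        X ^ (below (FR R cp t) i + nst i (fun _ => k) v) *
        (1 + X) ^ ((lv P i).card - 2 + nab (i + k) v - nab i v + 1)) := by
  have hi : ∀ x ∈ R, i < GaussPoset.lev x := fun x hx => by
    have := H.lev x hx
    omega
  exact (H.famD F).family F A hk hpk (H.rd F A hk hi hv) hN1 hU

end Join

end Pool.Agent.GaussPoset.W7
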